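import Pool.Agent.R989.DK.Basic

open MeasureTheory Set Filter Topology
open scoped ENNReal Interval

namespace Pool.Agent.R989.DK

/-- clamping to `[lo, hi]` -/
noncomputable def cl (lo hi y : ℝ) : ℝ := max lo (min y hi)

/-- indicator of `(lo, hi)` -/
noncomputable def ind (lo hi y : ℝ) : ℝ := if lo < y ∧ y < hi then 1 else 0

lemma cl_of_le {lo hi y : ℝ} (hy : y ≤ lo) : cl lo hi y = lo := by
  unfold cl; exact max_eq_left ((min_le_left _ _).trans hy)

lemma cl_of_ge {lo hi y : ℝ} (h : lo ≤ hi) (hy : hi ≤ y) : cl lo hi y = hi := by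
  unfold cl; rw [min_eq_right hy, max_eq_right h]

lemma cl_of_mem {lo hi y : ℝ} (h1 : lo ≤ y) (h2 : y ≤ hi) : cl lo hi y = y := by
  unfold cl; rw [min_eq_left h2, max_eq_right h1]

lemma cl_mem {lo hi : ℝ} (h : lo ≤ hi) (y : ℝ) : lo ≤ cl lo hi y ∧ cl lo hi y ≤ hi :=
  ⟨le_max_left _ _, max_le h (min_le_right _ _)⟩

lemma ind_of_mem {lo hi y : ℝ} (h1 : lo < y) (h2 : y < hi) : ind lo hi y = 1 := if_pos ⟨h1, h2⟩

lemma ind_of_le {lo hi y : ℝ} (h1 : y ≤ lo) : ind lo hi y = 0 :=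
  if_neg fun h => (not_lt.mpr h1) h.1

lemma ind_of_ge {lo hi y : ℝ} (h1 : hi ≤ y) : ind lo hi y = 0 :=
  if_neg fun h => (not_lt.mpr h1) h.2

lemma hasDerivAt_cl {lo hi y : ℝ} (h : lo ≤ hi) (h1 : y ≠ lo) (h2 : y ≠ hi) :
    HasDerivAt (cl lo hi) (ind lo hi y) y := by
  rcases lt_or_gt_of_ne h1 with h1 | h1
  · rw [ind_of_le h1.le]
    refine (hasDerivAt_const y lo).congr_of_eventuallyEq ?_
    filter_upwards [eventually_lt_nhds h1] with z hz
    exact cl_of_le hz.le
  · rcases lt_or_gt_of_ne h2 with h2 | h2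
    · rw [ind_of_mem h1 h2]
      refine (hasDerivAt_id y).congr_of_eventuallyEq ?_
      filter_upwards [eventually_lt_nhds h2, eventually_gt_nhds h1] with z hz hz'
      exact cl_of_mem hz'.le hz.le
    · rw [ind_of_ge h2.le]
      refine (hasDerivAt_const y hi).congr_of_eventuallyEq ?_
      filter_upwards [eventually_gt_nhds h2] with z hz
      exact cl_of_ge h hz.le

lemma continuous_cl (lo hi : ℝ) : Continuous (cl lo hi) := by
  unfold cl; fun_prop

lemma measurable_ind (lo hi : ℝ) : Measurable (ind lo hi) :=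
  Measurable.ite measurableSet_Ioo measurable_const measurable_const

lemma lipschitz_cl (lo hi : ℝ) : LipschitzWith 1 (cl lo hi) := by
  have h1 : LipschitzWith 1 (fun y : ℝ => min y hi) := (LipschitzWith.id).min_const hi
  exact h1.const_max lo

lemma ac_lin (k a b : ℝ) : AbsolutelyContinuousOnInterval (fun x => k * x) a b := by
  apply ContDiffOn.absolutelyContinuousOnInterval
  fun_prop

lemma ac_cl (lo hi k a b : ℝ) :
    AbsolutelyContinuousOnInterval (fun x => cl lo hi (k * x)) a b :=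
  ac_comp (s := univ) (lipschitz_cl lo hi).lipschitzOnWith (ac_lin k a b) fun _ _ => mem_univ _

/-- the parameters of the construction -/
structure Par where
  (m k a s d : ℝ)
  hm : 0 < m
  hk : 0 < k
  ha : Real.pi / 4 < a
  ha' : a < Real.pi / 2
  hs : 0 < s
  hs1 : s ≤ 1
  hsk : s * (k + m) ≤ k
  hd : 0 < d

namespace Par
variable (P : Par)

noncomputable def b0 : ℝ := (P.a + Real.pi / 4) / 2
noncomputable def bm : ℝ := (P.b0 + P.a) / 2
noncomputable def b1 : ℝ := (P.b0 + P.bm) / 2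
noncomputable def E1 : ℝ := Real.exp (3 * (P.m / P.k) * (P.b1 + P.a))
noncomputable def rho : ℝ := P.d * (1 + P.E1) / (P.bm - P.b1)
noncomputable def Th (y : ℝ) : ℝ := cl (-P.a) P.a y
noncomputable def Et (y : ℝ) : ℝ :=
  P.s * (cl P.b0 P.bm y - cl P.bm P.a y + (P.bm - P.b0))
noncomputable def E (y : ℝ) : ℝ := Real.exp (3 * (P.m / P.k) * (cl (-P.a) P.b1 y + P.a))
noncomputable def D (y : ℝ) : ℝ := -P.d * P.E y + P.rho * (cl P.b1 P.bm y - P.b1)
noncomputable def Et' (y : ℝ) : ℝ := P.s * (ind P.b0 P.bm y - ind P.bm P.a y)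
noncomputable def D' (y : ℝ) : ℝ :=
  -P.d * (P.E y * (3 * (P.m / P.k) * ind (-P.a) P.b1 y)) + P.rho * ind P.b1 P.bm y
noncomputable def eps : ℝ := P.m * (Real.sin (2 * P.a) * Real.sin P.d)

/-- The smallness conditions on `d`. -/
structure Small : Prop where
  c1 : P.d ≤ (P.b0 - Real.pi / 4) / 2
  c2 : P.a + P.d * P.E1 + P.s * (P.bm - P.b0) < Real.pi / 2
  c3 : P.m * P.d + P.k * P.rho ≤ P.m * (-Real.cos (P.b0 + Real.pi / 4) *
    (1 - Real.cos (2 * (P.s * (P.b1 - P.b0)))) - 2 * (P.d * P.E1))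

lemma ord : Real.pi / 4 < P.b0 ∧ P.b0 < P.b1 ∧ P.b1 < P.bm ∧ P.bm < P.a := by
  have h1 := P.ha
  have h2 : P.b0 = (P.a + Real.pi / 4) / 2 := rfl
  have h3 : P.bm = (P.b0 + P.a) / 2 := rfl
  have h4 : P.b1 = (P.b0 + P.bm) / 2 := rfl
  refine ⟨by linarith, by linarith, by linarith, by linarith⟩

lemma bm_eq : 2 * P.bm - P.b0 = P.a := by
  have h3 : P.bm = (P.b0 + P.a) / 2 := rfl
  linarith

lemma hasDerivAt_Th {y : ℝ} (h1 : y ≠ -P.a) (h2 : y ≠ P.a) :
    HasDerivAt P.Th (ind (-P.a) P.a y) y :=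
  hasDerivAt_cl (by have := P.ha; have := Real.pi_pos; linarith) h1 h2

lemma hasDerivAt_Et {y : ℝ} (h0 : y ≠ P.b0) (hm : y ≠ P.bm) (h1 : y ≠ P.a) :
    HasDerivAt P.Et (P.Et' y) y := by
  obtain ⟨o1, o2, o3, o4⟩ := P.ord
  exact (((hasDerivAt_cl (by linarith) h0 hm).sub (hasDerivAt_cl (by linarith) hm h1)).add_const
    (P.bm - P.b0)).const_mul P.s

lemma hasDerivAt_D {y : ℝ} (ha : y ≠ -P.a) (h1 : y ≠ P.b1) (hm : y ≠ P.bm) :
    HasDerivAt P.D (P.D' y) y := by
  obtain ⟨o1, o2, o3, o4⟩ := P.ord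
  have hpi := Real.pi_pos
  have h2 := (((hasDerivAt_cl (by linarith) ha h1).add_const P.a).const_mul
    (3 * (P.m / P.k))).exp
  have h3 := (h2.const_mul (-P.d)).add (((hasDerivAt_cl (by linarith) h1 hm).sub_const
    P.b1).const_mul P.rho)
  exact h3

lemma E_le (y : ℝ) : P.E y ≤ P.E1 := by
  have hpi := Real.pi_pos
  obtain ⟨o1, o2, o3, o4⟩ := P.ord
  have h1 := cl_mem (lo := -P.a) (hi := P.b1) (by linarith) y
  have h2 := P.hm
  have h3 := P.hk
  unfold E E1
  apply Real.exp_le_exp.mpr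
  apply mul_le_mul_of_nonneg_left _ (by positivity)
  linarith [h1.2]

lemma one_le_E (y : ℝ) : 1 ≤ P.E y := by
  have hpi := Real.pi_pos
  obtain ⟨o1, o2, o3, o4⟩ := P.ord
  have h1 := cl_mem (lo := -P.a) (hi := P.b1) (by linarith) y
  have h2 := P.hm
  have h3 := P.hk
  unfold E
  apply Real.one_le_exp
  apply mul_nonneg (by positivity)
  linarith [h1.1]

lemma one_le_E1 : 1 ≤ P.E1 := (P.one_le_E 0).trans (P.E_le 0)

lemma rho_mul : P.rho * (P.bm - P.b1) = P.d * (1 + P.E1) := by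
  obtain ⟨o1, o2, o3, o4⟩ := P.ord
  unfold rho
  exact div_mul_cancel₀ _ (by linarith)

lemma rho_pos : 0 < P.rho := by
  obtain ⟨o1, o2, o3, o4⟩ := P.ord
  have := P.one_le_E1
  have := P.hd
  unfold rho
  exact div_pos (mul_pos P.hd (by linarith)) (by linarith)

lemma D_bound (y : ℝ) : -(P.d * P.E1) ≤ P.D y ∧ P.D y ≤ P.d := by
  obtain ⟨o1, o2, o3, o4⟩ := P.ord
  have hpi := Real.pi_pos
  have h1 := P.E_le y
  have h2 := P.one_le_E y
  have h3 := cl_mem (lo := P.b1) (hi := P.bm) o3.le y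
  have h4 := P.rho_pos
  have h5 := P.rho_mul
  have hd := P.hd
  have h6 := P.one_le_E1
  unfold D
  rcases le_total y P.b1 with hy | hy
  · rw [cl_of_le hy]
    constructor <;> nlinarith
  · have hE : P.E y = P.E1 := by
      unfold E E1; rw [cl_of_ge (by linarith) hy]
    rw [hE]
    constructor
    · nlinarith [mul_nonneg h4.le (sub_nonneg.mpr h3.1)]
    · nlinarith [mul_le_mul_of_nonneg_left h3.2 h4.le]

lemma Et_bound (y : ℝ) : 0 ≤ P.Et y ∧ P.Et y ≤ P.s * (P.bm - P.b0) := by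
  obtain ⟨o1, o2, o3, o4⟩ := P.ord
  have h0 := P.bm_eq
  have hs := P.hs
  unfold Et
  rcases le_total y P.bm with hy | hy
  · rw [cl_of_le (lo := P.bm) hy]
    have h3 := cl_mem (lo := P.b0) (hi := P.bm) (by linarith) y
    constructor
    · apply mul_nonneg hs.le; linarith
    · apply mul_le_mul_of_nonneg_left _ hs.le; linarith
  · rw [cl_of_ge (lo := P.b0) (by linarith) hy]
    have h3 := cl_mem (lo := P.bm) (hi := P.a) (by linarith) y
    constructor
    · apply mul_nonneg hs.le; linarith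
    · apply mul_le_mul_of_nonneg_left _ hs.le; linarith

lemma Et_zero_of_le {y : ℝ} (hy : y ≤ P.b0) : P.Et y = 0 := by
  obtain ⟨o1, o2, o3, o4⟩ := P.ord
  unfold Et
  rw [cl_of_le hy, cl_of_le (by linarith)]
  ring

lemma Et_zero_of_ge {y : ℝ} (hy : P.a ≤ y) : P.Et y = 0 := by
  obtain ⟨o1, o2, o3, o4⟩ := P.ord
  have h0 := P.bm_eq
  unfold Et
  rw [cl_of_ge (by linarith) (by linarith), cl_of_ge (by linarith) hy]
  rw [show P.bm - P.a + (P.bm - P.b0) = 0 by linarith, mul_zero]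

lemma Th_of_mem {y : ℝ} (h1 : -P.a ≤ y) (h2 : y ≤ P.a) : P.Th y = y := cl_of_mem h1 h2

lemma Th_of_le {y : ℝ} (h1 : y ≤ -P.a) : P.Th y = -P.a := cl_of_le h1

lemma Th_of_ge {y : ℝ} (h1 : P.a ≤ y) : P.Th y = P.a :=
  cl_of_ge (by have := P.ha; have := Real.pi_pos; linarith) h1

lemma Th_bound (y : ℝ) : -P.a ≤ P.Th y ∧ P.Th y ≤ P.a :=
  cl_mem (by have := P.ha; have := Real.pi_pos; linarith) y

lemma eps_pos (h : P.d < Real.pi) : 0 < P.eps := by
  have h1 := P.ha
  have h2 := P.ha'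
  have hpi := Real.pi_pos
  unfold eps
  apply mul_pos P.hm
  apply mul_pos
  · exact Real.sin_pos_of_pos_of_lt_pi (by linarith) (by linarith)
  · exact Real.sin_pos_of_pos_of_lt_pi P.hd h

lemma eps_le (h : P.d < Real.pi) : P.eps ≤ P.m * P.d := by
  have h1 := P.ha
  have h2 := P.ha'
  have hpi := Real.pi_pos
  unfold eps
  apply mul_le_mul_of_nonneg_left _ P.hm.le
  have h3 : Real.sin P.d ≤ P.d := Real.sin_le P.hd.le
  have h4 : 0 ≤ Real.sin P.d := (Real.sin_pos_of_pos_of_lt_pi P.hd h).le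
  have h5 := Real.sin_le_one (2 * P.a)
  nlinarith

lemma gain (h : P.d < Real.pi) {z : ℝ} (hz1 : Real.pi / 2 ≤ 2 * z - P.d) (hz2 : z ≤ P.a) :
    P.eps + P.m * Real.cos (2 * z) ≤ P.m * Real.cos (2 * (z - P.d)) := by
  have h1 := P.ha
  have h2 := P.ha'
  have hpi := Real.pi_pos
  have hd := P.hd
  have h3 := Real.cos_sub_cos (2 * (z - P.d)) (2 * z)
  rw [show (2 * (z - P.d) + 2 * z) / 2 = 2 * z - P.d by ring,
    show (2 * (z - P.d) - 2 * z) / 2 = -P.d by ring, Real.sin_neg] at h3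
  have h4 : Real.sin (2 * P.a) ≤ Real.sin (2 * z - P.d) := by
    rw [← Real.cos_sub_pi_div_two, ← Real.cos_sub_pi_div_two]
    exact Real.cos_le_cos_of_nonneg_of_le_pi (by linarith) (by linarith) (by linarith)
  have h5 : 0 ≤ Real.sin P.d := (Real.sin_pos_of_pos_of_lt_pi P.hd h).le
  have h6 : 0 ≤ Real.sin (2 * P.a) :=
    (Real.sin_pos_of_pos_of_lt_pi (by linarith) (by linarith)).le
  have h7 : Real.sin (2 * P.a) * Real.sin P.d ≤
      Real.cos (2 * (z - P.d)) - Real.cos (2 * z) := by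
    rw [h3]
    nlinarith [mul_le_mul_of_nonneg_right h4 h5, mul_nonneg h6 h5]
  have h8 := mul_le_mul_of_nonneg_left h7 P.hm.le
  unfold eps
  linarith

lemma d_lt (hP : P.Small) : P.d < Real.pi := by
  have h1 := hP.c1
  have h2 := P.ha'
  obtain ⟨o1, o2, o3, o4⟩ := P.ord
  have hpi := Real.pi_pos
  linarith

lemma th0_mem (hP : P.Small) {y : ℝ} (hy : P.b0 ≤ y) :
    P.b0 + Real.pi / 4 ≤ 2 * (P.Th y - P.D y) ∧ 2 * (P.Th y - P.D y) ≤ Real.pi := by
  obtain ⟨o1, o2, o3, o4⟩ := P.ord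
  have hpi := Real.pi_pos
  have h1 := P.D_bound y
  have h2 := hP.c1
  have h3 := hP.c2
  have h4 : 0 ≤ P.s * (P.bm - P.b0) := mul_nonneg P.hs.le (by linarith)
  have h5 := (P.Th_bound y).2
  have h6 : P.b0 ≤ P.Th y := by
    rcases le_total y P.a with hy2 | hy2
    · rw [P.Th_of_mem (by linarith) hy2]; exact hy
    · rw [P.Th_of_ge hy2]; linarith
  constructor <;> linarith

lemma cos_th0 (hP : P.Small) {y : ℝ} (hy : P.b0 ≤ y) :
    Real.cos (2 * (P.Th y - P.D y)) ≤ Real.cos (P.b0 + Real.pi / 4) ∧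
      Real.cos (P.b0 + Real.pi / 4) ≤ 0 := by
  obtain ⟨o1, o2, o3, o4⟩ := P.ord
  have hpi := Real.pi_pos
  have h1 := P.th0_mem hP hy
  have h2 := P.ha'
  exact ⟨Real.cos_le_cos_of_nonneg_of_le_pi (by linarith) h1.2 h1.1,
    Real.cos_nonpos_of_pi_div_two_le_of_le (by linarith) (by linarith)⟩

lemma cosmul (hP : P.Small) (y : ℝ) : Real.cos (2 * (P.Th y - P.D y)) ≤
    Real.cos (2 * (P.Th y - P.D y)) * Real.cos (2 * P.Et y) := by
  rcases le_total y P.b0 with hy | hy
  · rw [P.Et_zero_of_le hy]; simp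
  · have h1 := P.cos_th0 hP hy
    nlinarith [Real.cos_le_one (2 * P.Et y)]

lemma cos_ge (x t : ℝ) (ht : 0 ≤ t) : Real.cos x - t ≤ Real.cos (x + t) := by
  have h1 := Real.abs_cos_sub_cos_le x (x + t)
  have h2 := (abs_le.mp h1).2
  rw [show x - (x + t) = -t by ring, abs_neg, abs_of_nonneg ht] at h2
  linarith

lemma cos_ge' (x t T : ℝ) (ht : |t| ≤ T) : Real.cos x - T ≤ Real.cos (x + t) := by
  have h1 := Real.abs_cos_sub_cos_le x (x + t)
  have h2 := (abs_le.mp h1).2
  rw [show x - (x + t) = -t by ring, abs_neg] at h2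
  linarith

lemma key (hP : P.Small) {y : ℝ} (ha : y ≠ -P.a) (h1 : y ≠ P.b1) (hm : y ≠ P.bm)
    (ha' : y ≠ P.a) :
    P.k * P.D' y + P.eps + P.m * Real.cos (2 * P.Th y) ≤
      P.m * (Real.cos (2 * (P.Th y - P.D y)) * Real.cos (2 * P.Et y)) := by
  obtain ⟨o1, o2, o3, o4⟩ := P.ord
  have hpi := Real.pi_pos
  have hdl := P.d_lt hP
  have hcm := mul_le_mul_of_nonneg_left (P.cosmul hP y) P.hm.le
  have hmp := P.hm
  have hkp := P.hk
  have hdp := P.hd
  have hc1 := hP.c1
  have hE1 := P.one_le_E1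
  have hel := P.eps_le hdl
  rcases lt_or_gt_of_ne ha with h | h
  · -- left region
    refine le_trans ?_ hcm
    have e1 : P.D' y = 0 := by
      unfold D'; rw [ind_of_le h.le, ind_of_le (by linarith)]; ring
    have e2 : P.D y = -P.d := by
      unfold D E; rw [cl_of_le h.le, cl_of_le (by linarith)]; simp
    rw [e1, e2, P.Th_of_le h.le]
    have h5 := P.gain hdl (z := P.a) (by linarith) le_rfl
    rw [show 2 * (-P.a - -P.d) = -(2 * (P.a - P.d)) by ring, Real.cos_neg,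
      show 2 * (-P.a) = -(2 * P.a) by ring, Real.cos_neg]
    linarith
  rcases lt_or_gt_of_ne h1 with h' | h'
  · -- ramp
    refine le_trans ?_ hcm
    have hE := P.one_le_E y
    have e1 : P.D' y = -P.d * (P.E y * (3 * (P.m / P.k))) := by
      unfold D'; rw [ind_of_mem h h', ind_of_le h'.le]; ring
    have e2 : P.D y = -P.d * P.E y := by
      unfold D; rw [cl_of_le (lo := P.b1) h'.le]; ring
    have e3 : P.k * P.D' y = -(3 * (P.m * (P.d * P.E y))) := by
      rw [e1]; field_simp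
    rw [e3, e2, P.Th_of_mem h.le (by linarith)]
    have h5 := cos_ge (2 * y) (2 * (P.d * P.E y)) (by positivity)
    rw [show 2 * (y - -P.d * P.E y) = 2 * y + 2 * (P.d * P.E y) by ring]
    have h6 := mul_le_mul_of_nonneg_left h5 hmp.le
    have h7 : P.m * P.d ≤ P.m * (P.d * P.E y) := by
      apply mul_le_mul_of_nonneg_left _ hmp.le
      nlinarith
    linarith
  rcases lt_or_gt_of_ne hm with h'' | h''
  · -- rise
    have hEy : P.E y = P.E1 := by
      unfold E E1; rw [cl_of_ge (by linarith) h'.le]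
    have e1 : P.D' y = P.rho := by
      unfold D'; rw [ind_of_ge h'.le, ind_of_mem h' h'']; ring
    have hDb := P.D_bound y
    have hDa : |-(2 * P.D y)| ≤ 2 * (P.d * P.E1) := by
      rw [abs_neg, abs_le]; constructor <;> nlinarith
    have h5 := cos_ge' (2 * y) (-(2 * P.D y)) _ hDa
    have h6 := P.cos_th0 hP (y := y) (by linarith)
    have hEt : P.Et y = P.s * (y - P.b0) := by
      unfold Et
      rw [cl_of_mem (by linarith) h''.le, cl_of_le h''.le]; ring
    have h7 : Real.cos (2 * P.Et y) ≤ Real.cos (2 * (P.s * (P.b1 - P.b0))) := by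
      rw [hEt]
      have hs := P.hs
      have hs1 := P.hs1
      have hA := P.ha'
      apply Real.cos_le_cos_of_nonneg_of_le_pi
      · exact mul_nonneg two_pos.le (mul_nonneg hs.le (by linarith))
      · nlinarith
      · nlinarith
    have h8 := Real.cos_le_one (2 * P.Et y)
    have h9 := hP.c3
    have e4 : 2 * (P.Th y - P.D y) = 2 * y + -(2 * P.D y) := by
      rw [P.Th_of_mem h.le (by linarith)]; ring
    rw [e1, P.Th_of_mem h.le (by linarith)]
    rw [e4] at h6
    rw [show 2 * (y - P.D y) = 2 * y + -(2 * P.D y) by ring]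
    set X := Real.cos (2 * y + -(2 * P.D y))
    set c := Real.cos (P.b0 + Real.pi / 4)
    set w := Real.cos (2 * P.Et y)
    set w0 := Real.cos (2 * (P.s * (P.b1 - P.b0)))
    have h10 : X * w ≥ X + -c * (1 - w0) := by nlinarith
    have h11 := mul_le_mul_of_nonneg_left h10 hmp.le
    have h12 := mul_le_mul_of_nonneg_left h5 hmp.le
    nlinarith
  · -- right regions
    refine le_trans ?_ hcm
    have e1 : P.D' y = 0 := by
      unfold D'; rw [ind_of_ge (by linarith), ind_of_ge h''.le]; ring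
    have e2 : P.D y = P.d := by
      have hr := P.rho_mul
      unfold D
      rw [cl_of_ge (lo := P.b1) o3.le h''.le]
      have hEy : P.E y = P.E1 := by
        unfold E E1; rw [cl_of_ge (by linarith) (by linarith)]
      rw [hEy]
      linarith
    rw [e1, e2]
    rcases le_total y P.a with hy | hy
    · rw [P.Th_of_mem h.le hy]
      have h5 := P.gain hdl (z := y) (by linarith) hy
      linarith
    · rw [P.Th_of_ge hy]
      have h5 := P.gain hdl (z := P.a) (by linarith) le_rfl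
      linarith

/-- the perturbed potentials (`σ = ±1`), `V_σ = V_1 + σ Z` -/
noncomputable def Vp (σ x : ℝ) : ℝ :=
  P.k * ind (-P.a) P.a (P.k * x) + P.m * Real.cos (2 * P.Th (P.k * x))
    - P.m * Real.cos (2 * P.a)
    + σ * (P.k * P.Et' (P.k * x) - P.m * (Real.sin (2 * (P.Th (P.k * x) - P.D (P.k * x))) *
      Real.sin (2 * P.Et (P.k * x))))

noncomputable def ang (σ x : ℝ) : ℝ := P.Th (P.k * x) - P.D (P.k * x) + σ * P.Et (P.k * x)

lemma ang_bound {σ : ℝ} (hσ : σ = 1 ∨ σ = -1) (x : ℝ) :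
    |P.ang σ x| ≤ P.a + P.d * P.E1 + P.s * (P.bm - P.b0) := by
  have h1 := P.Th_bound (P.k * x)
  have h2 := P.D_bound (P.k * x)
  have h3 := P.Et_bound (P.k * x)
  have h4 : P.d ≤ P.d * P.E1 := by nlinarith [P.hd, P.one_le_E1]
  unfold ang
  rw [abs_le]
  rcases hσ with rfl | rfl <;> constructor <;> linarith

lemma ang_ac (σ a b : ℝ) : AbsolutelyContinuousOnInterval (P.ang σ) a b := by
  have hE : AbsolutelyContinuousOnInterval (fun x => P.E (P.k * x)) a b := by
    have hlip : ContDiffOn ℝ 1 (fun z => Real.exp (3 * (P.m / P.k) * (z + P.a)))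
        (Icc (-P.a) P.b1) := by fun_prop
    obtain ⟨K, hK⟩ := hlip.exists_lipschitzOnWith (by decide) (convex_Icc _ _) isCompact_Icc
    have hpi := Real.pi_pos
    obtain ⟨o1, o2, o3, o4⟩ := P.ord
    exact ac_comp (g := fun z => Real.exp (3 * (P.m / P.k) * (z + P.a)))
      (s := Icc (-P.a) P.b1) (f := fun x => cl (-P.a) P.b1 (P.k * x)) hK
      (ac_cl (-P.a) P.b1 P.k a b) fun x _ => cl_mem (by linarith) _
  have hD : AbsolutelyContinuousOnInterval (fun x => P.D (P.k * x)) a b := by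
    have hc : AbsolutelyContinuousOnInterval (fun _ : ℝ => P.b1) a b :=
      (LipschitzWith.const _).lipschitzOnWith.absolutelyContinuousOnInterval
    exact ac_congr (fun x => rfl) ((hE.const_mul (-P.d)).fun_add
      (((ac_cl P.b1 P.bm P.k a b).fun_sub hc).const_mul P.rho))
  have hEt : AbsolutelyContinuousOnInterval (fun x => P.Et (P.k * x)) a b := by
    have hc : AbsolutelyContinuousOnInterval (fun _ : ℝ => P.bm - P.b0) a b :=
      (LipschitzWith.const _).lipschitzOnWith.absolutelyContinuousOnInterval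
    exact ac_congr (fun x => rfl) ((((ac_cl P.b0 P.bm P.k a b).fun_sub
      (ac_cl P.bm P.a P.k a b)).fun_add hc).const_mul P.s)
  exact ac_congr (fun x => rfl) (((ac_cl (-P.a) P.a P.k a b).fun_sub hD).fun_add
    (hEt.const_mul σ))

lemma ang_deriv (hP : P.Small) {σ : ℝ} (hσ : σ = 1 ∨ σ = -1) :
    ∀ᵐ x, ∃ y', HasDerivAt (P.ang σ) y' x ∧
      (P.m * Real.cos (2 * P.a) + P.eps) + P.Vp σ x - P.m * Real.cos (2 * P.ang σ x) ≤ y' := by
  have hne : ∀ c : ℝ, ∀ᵐ x : ℝ, P.k * x ≠ c := by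
    intro c
    have h1 : ∀ᵐ x : ℝ, x ≠ c / P.k := by simp [ae_iff, measure_singleton]
    filter_upwards [h1] with x hx hcon
    apply hx
    rw [← hcon]
    have := P.hk.ne'
    field_simp
  filter_upwards [hne (-P.a), hne P.b0, hne P.b1, hne P.bm, hne P.a] with x ha h0 h1 hm ha'
  have hl : HasDerivAt (fun x : ℝ => P.k * x) P.k x := by
    simpa using (hasDerivAt_id x).const_mul P.k
  have d1 := (P.hasDerivAt_Th ha ha').comp x hl
  have d2 := (P.hasDerivAt_D ha h1 hm).comp x hl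
  have d3 := (P.hasDerivAt_Et h0 hm ha').comp x hl
  refine ⟨_, (d1.sub d2).add (d3.const_mul σ), ?_⟩
  have hk := P.key hP ha h1 hm ha'
  set y := P.k * x with hy
  have e1 : Real.cos (2 * P.ang σ x) = Real.cos (2 * (P.Th y - P.D y)) * Real.cos (2 * P.Et y)
      - σ * (Real.sin (2 * (P.Th y - P.D y)) * Real.sin (2 * P.Et y)) := by
    have e2 : 2 * P.ang σ x = 2 * (P.Th y - P.D y) + σ * (2 * P.Et y) := by
      unfold ang; rw [← hy]; ring
    rw [e2, Real.cos_add]
    rcases hσ with rfl | rfl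
    · simp
    · simp [Real.cos_neg, Real.sin_neg]
  rw [e1]
  unfold Vp
  rw [← hy]
  nlinarith

end Par

end Pool.Agent.R989.DK
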