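import Mathlib

open MeasureTheory Set Filter Topology
open scoped ENNReal Interval

namespace Pool.Agent.R989.DK

/-- `lam` is an eigenvalue of the one-dimensional Dirac operator `D_m - V` on `L²(ℝ, ℂ²)`, where
`D_m = [[m, ∂], [-∂, -m]]`: there is a nonzero pair `(u, v)` of square-integrable
(locally absolutely continuous) functions with `u' = -(lam + V + m) v` and
`v' = (lam + V - m) u`, written in integrated form. -/
def IsEigenvalue (m : ℝ) (V : ℝ → ℝ) (lam : ℝ) : Prop :=
  ∃ u v : ℝ → ℂ, Continuous u ∧ Continuous v ∧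
    (∀ x, u x = u 0 - ∫ s in (0:ℝ)..x, ((lam + V s + m : ℝ) : ℂ) * v s) ∧
    (∀ x, v x = v 0 + ∫ s in (0:ℝ)..x, ((lam + V s - m : ℝ) : ℂ) * u s) ∧
    MemLp u 2 volume ∧ MemLp v 2 volume ∧ ∃ x, u x ≠ 0 ∨ v x ≠ 0

/-- The lowest eigenvalue of `D_m - V` in the gap `(-m, m)`, with value `m` if there is none. -/
noncomputable def lambdaD (m : ℝ) (V : ℝ → ℝ) : ℝ :=
  sInf ({lam | -m < lam ∧ lam < m ∧ IsEigenvalue m V lam} ∪ {m})

/-- `V` reaches the lower end of the gap: along the segment `t V`, `t ∈ [0, 1]`, the lowest gap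
eigenvalue comes arbitrarily close to `-m`. -/
def Reaches (m : ℝ) (V : ℝ → ℝ) : Prop :=
  ∀ ε : ℝ, 0 < ε → ∃ t ∈ Icc (0:ℝ) 1, lambdaD m (fun x => t * V x) < -m + ε

/-- The critical norm `α_⋆(p)`. -/
noncomputable def alphaStar (m p : ℝ) : ℝ≥0∞ :=
  sInf {a | ∃ V : ℝ → ℝ, (∀ x, 0 ≤ V x) ∧ MemLp V (ENNReal.ofReal p) volume ∧ Reaches m V ∧
    a = eLpNorm V (ENNReal.ofReal p) volume}

/-- The set `U_p` of nonnegative potentials in `L^p(ℝ)` with norm less than `α_⋆(p)`. -/
def U (m p : ℝ) : Set (ℝ → ℝ) :=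
  {V | (∀ x, 0 ≤ V x) ∧ MemLp V (ENNReal.ofReal p) volume ∧
    eLpNorm V (ENNReal.ofReal p) volume < alphaStar m p}

lemma bddBelow_gap {m : ℝ} (hm : 0 < m) (V : ℝ → ℝ) :
    BddBelow ({lam | -m < lam ∧ lam < m ∧ IsEigenvalue m V lam} ∪ {m}) := by
  refine ⟨-m, ?_⟩
  rintro x (hx | hx)
  · exact hx.1.le
  · rw [mem_singleton_iff] at hx
    rw [hx]; linarith

lemma lambdaD_le {m : ℝ} (hm : 0 < m) {V : ℝ → ℝ} {lam : ℝ} (h1 : -m < lam) (h2 : lam < m)
    (h : IsEigenvalue m V lam) : lambdaD m V ≤ lam :=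
  csInf_le (bddBelow_gap hm V) (Or.inl ⟨h1, h2, h⟩)

lemma le_lambdaD {m : ℝ} {V : ℝ → ℝ} {lam : ℝ} (h2 : lam ≤ m)
    (h : ∀ mu, -m < mu → mu < lam → ¬ IsEigenvalue m V mu) : lam ≤ lambdaD m V := by
  refine le_csInf ⟨m, Or.inr rfl⟩ ?_
  rintro x (hx | hx)
  · by_contra hlt
    exact h x hx.1 (not_le.mp hlt) hx.2.2
  · rw [mem_singleton_iff] at hx
    rw [hx]; exact h2

lemma ac_comp {f g : ℝ → ℝ} {a b : ℝ} {s : Set ℝ} {K : NNReal} (hg : LipschitzOnWith K g s)
    (hf : AbsolutelyContinuousOnInterval f a b) (hs : ∀ x ∈ uIcc a b, f x ∈ s) :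
    AbsolutelyContinuousOnInterval (fun x => g (f x)) a b := by
  unfold AbsolutelyContinuousOnInterval at hf ⊢
  apply squeeze_zero' ?_ ?_ (by simpa using hf.const_mul (K:ℝ))
  · exact Filter.Eventually.of_forall fun _ ↦ Finset.sum_nonneg (fun i hi ↦ dist_nonneg)
  rw [eventually_inf_principal]
  filter_upwards with (n, I) hnI
  simp only [Finset.mul_sum]
  apply Finset.sum_le_sum
  intro i hi
  simp only [AbsolutelyContinuousOnInterval.disjWithin, mem_ofPred_eq] at hnI
  exact hg.dist_le_mul _ (hs _ (hnI.left i hi).1) _ (hs _ (hnI.left i hi).2)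

lemma ac_congr {f g : ℝ → ℝ} {a b : ℝ} (h : ∀ x, f x = g x)
    (hg : AbsolutelyContinuousOnInterval g a b) : AbsolutelyContinuousOnInterval f a b := by
  have : f = g := funext h
  rw [this]
  exact hg

lemma cos_pos_of_abs {Θ x : ℝ} (hΘ : Θ < Real.pi / 2) (h : |x| ≤ Θ) : 0 < Real.cos x :=
  Real.cos_pos_of_mem_Ioo ⟨by linarith [(abs_le.mp h).1], by linarith [(abs_le.mp h).2]⟩

lemma ac_tan {θ : ℝ → ℝ} {Θ a b : ℝ} (hΘ : Θ < Real.pi / 2) (hθb : ∀ x, |θ x| ≤ Θ)
    (hθ : AbsolutelyContinuousOnInterval θ a b) :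
    AbsolutelyContinuousOnInterval (fun x => Real.tan (θ x)) a b := by
  have h1 : ContDiffOn ℝ 1 Real.tan (Icc (-Θ) Θ) := by
    intro x hx
    exact (Real.contDiffAt_tan.mpr (cos_pos_of_abs hΘ (abs_le.mpr hx)).ne').contDiffWithinAt
  obtain ⟨K, hK⟩ := h1.exists_lipschitzOnWith (by decide) (convex_Icc _ _) isCompact_Icc
  exact ac_comp hK hθ fun x _ => abs_le.mp (hθb x)

/-- The comparison lemma: an (angular) supersolution at level `lam` excludes eigenvalues
`mu ∈ (-m, lam)`. -/
theorem no_solution {m lam mu Θ : ℝ} {V θ u v : ℝ → ℝ}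
    (hV : ∀ x, 0 ≤ V x) (hVi : LocallyIntegrable V)
    (hmu : -m < mu) (hlt : mu < lam) (hΘ : Θ < Real.pi / 2)
    (hθb : ∀ x, |θ x| ≤ Θ)
    (hθac : ∀ a b, AbsolutelyContinuousOnInterval θ a b)
    (hθd : ∀ᵐ x, ∃ y', HasDerivAt θ y' x ∧ lam + V x - m * Real.cos (2 * θ x) ≤ y')
    (hu : Continuous u) (hv : Continuous v)
    (hue : ∀ x, u x = u 0 - ∫ s in (0:ℝ)..x, (mu + V s + m) * v s)
    (hve : ∀ x, v x = v 0 + ∫ s in (0:ℝ)..x, (mu + V s - m) * u s)
    (hu2 : Integrable (fun x => u x ^ 2)) (hv2 : Integrable (fun x => v x ^ 2)) :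
    (∀ x, u x = 0) ∧ (∀ x, v x = 0) := by
  have hli : ∀ (c : ℝ) (w : ℝ → ℝ), Continuous w →
      LocallyIntegrable (fun s => (mu + V s + c) * w s) := by
    intro c w hw
    rw [locallyIntegrable_iff]
    intro K hK
    apply IntegrableOn.mul_continuousOn _ hw.continuousOn hK
    have h1 : LocallyIntegrable (fun s => mu + V s + c) :=
      ((locallyIntegrable_const mu).add hVi).add (locallyIntegrable_const c)
    exact h1.integrableOn_isCompact hK
  have hII : ∀ {f : ℝ → ℝ}, LocallyIntegrable f → ∀ a b, IntervalIntegrable f volume a b := by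
    intro f hf a b
    exact intervalIntegrable_iff.mpr
      ((hf.integrableOn_isCompact isCompact_uIcc).mono_set uIoc_subset_uIcc)
  have hacI : ∀ {f : ℝ → ℝ}, LocallyIntegrable f → ∀ R : ℝ, 0 ≤ R →
      AbsolutelyContinuousOnInterval (fun x => ∫ s in (0:ℝ)..x, f s) (-R) R := by
    intro f hf R hR
    exact (hII hf (-R) R).absolutelyContinuousOnInterval_intervalIntegral
      (by rw [uIcc_of_le (by linarith)]; exact ⟨by linarith, hR⟩)
  have hacC : ∀ (c R : ℝ), AbsolutelyContinuousOnInterval (fun _ : ℝ => c) (-R) R := by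
    intro c R
    exact (LipschitzWith.const c).lipschitzOnWith.absolutelyContinuousOnInterval
  have hacu : ∀ R : ℝ, 0 ≤ R → AbsolutelyContinuousOnInterval u (-R) R := by
    intro R hR
    exact ac_congr hue ((hacC (u 0) R).fun_sub (hacI (hli m v hv) R hR))
  have hacv : ∀ R : ℝ, 0 ≤ R → AbsolutelyContinuousOnInterval v (-R) R := by
    intro R hR
    exact ac_congr hve ((hacC (v 0) R).fun_add (hacI (hli (-m) u hu) R hR))
  set F : ℝ → ℝ := fun x => u x * v x - u x ^ 2 * Real.tan (θ x) with hF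
  have hacF : ∀ R : ℝ, 0 ≤ R → AbsolutelyContinuousOnInterval F (-R) R := by
    intro R hR
    have h1 := (hacu R hR).fun_mul (hacv R hR)
    have h2 := ((hacu R hR).fun_mul (hacu R hR)).fun_mul (ac_tan hΘ hθb (hθac (-R) R))
    exact ac_congr (fun x => by simp only [hF]; ring) (h1.fun_sub h2)
  have hFd : ∀ᵐ x, ∃ F', HasDerivAt F F' x ∧ F' ≤ -(lam - mu) * u x ^ 2 := by
    filter_upwards [hθd, _root_.LocallyIntegrable.ae_hasDerivAt_integral (hli m v hv),
      _root_.LocallyIntegrable.ae_hasDerivAt_integral (hli (-m) u hu)] with x ⟨y', hy, hyle⟩ h1 h2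
    have hu' : HasDerivAt u (-((mu + V x + m) * v x)) x :=
      ((h1 0).const_sub (u 0)).congr_of_eventuallyEq (Eventually.of_forall fun z => hue z)
    have hv' : HasDerivAt v ((mu + V x + -m) * u x) x :=
      ((h2 0).const_add (v 0)).congr_of_eventuallyEq (Eventually.of_forall fun z => hve z)
    have hc : 0 < Real.cos (θ x) := cos_pos_of_abs hΘ (hθb x)
    have ht : HasDerivAt (fun z => Real.tan (θ z)) (1 / Real.cos (θ x) ^ 2 * y') x :=
      (Real.hasDerivAt_tan hc.ne').comp x hy
    have hF' := (hu'.mul hv').sub ((hu'.pow 2).mul ht)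
    refine ⟨_, hF', ?_⟩
    set T := Real.tan (θ x) with hT
    have e1 : 1 / Real.cos (θ x) ^ 2 = 1 + T ^ 2 := by
      rw [hT, Real.tan_eq_sin_div_cos]
      field_simp
      linarith [Real.sin_sq_add_cos_sq (θ x)]
    have e2 : Real.cos (2 * θ x) * (1 + T ^ 2) = 1 - T ^ 2 := by
      rw [hT, Real.tan_eq_sin_div_cos, Real.cos_two_mul]
      field_simp
      nlinarith [Real.sin_sq_add_cos_sq (θ x)]
    have e3 : (lam + V x) * (1 + T ^ 2) - m * (1 - T ^ 2) ≤ 1 / Real.cos (θ x) ^ 2 * y' := by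
      rw [e1, ← e2]
      nlinarith [mul_le_mul_of_nonneg_left hyle (by positivity : (0:ℝ) ≤ 1 + T ^ 2)]
    have hA : 0 ≤ mu + V x + m := by linarith [hV x]
    have h5 := mul_nonneg hA (sq_nonneg (v x - u x * T))
    have h6 := mul_nonneg (sub_nonneg.mpr hlt.le) (sq_nonneg (u x * T))
    have h7 := mul_le_mul_of_nonneg_left e3 (sq_nonneg (u x))
    simp only [Pi.pow_apply, Nat.cast_ofNat, Nat.add_one_sub_one, pow_one]
    nlinarith
  have hkey : ∀ a b, a ≤ b → F b + (lam - mu) * ∫ s in a..b, u s ^ 2 ≤ F a := by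
    intro a b hab
    have hR : 0 ≤ max |a| |b| := le_max_of_le_left (abs_nonneg a)
    have hac : AbsolutelyContinuousOnInterval F a b := by
      refine (hacF _ hR).mono ?_
      rw [uIcc_of_le hab, uIcc_of_le (by linarith)]
      apply Icc_subset_Icc
      · have := neg_abs_le a
        have := le_max_left |a| |b|
        linarith
      · exact (le_abs_self b).trans (le_max_right _ _)
    have h1 := hac.integral_deriv_eq_sub
    have h2 : ∫ x in a..b, deriv F x ≤ ∫ x in a..b, -(lam - mu) * u x ^ 2 := by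
      apply intervalIntegral.integral_mono_ae hab hac.intervalIntegrable_deriv
        ((continuous_const.mul (hu.pow 2)).intervalIntegrable _ _)
      filter_upwards [hFd] with x ⟨F', hF', hle⟩
      rw [hF'.deriv]; exact hle
    rw [intervalIntegral.integral_const_mul] at h2
    linarith
  have hanti : ∀ a b, a ≤ b → F b ≤ F a := by
    intro a b hab
    have h1 := hkey a b hab
    have h2 : 0 ≤ ∫ s in a..b, u s ^ 2 :=
      intervalIntegral.integral_nonneg hab fun x _ => sq_nonneg _
    nlinarith [mul_nonneg (sub_nonneg.mpr hlt.le) h2]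
  have hFc : Continuous F := by
    rw [continuous_iff_continuousAt]
    intro x
    have hR : 0 ≤ |x| + 1 := by positivity
    refine (hacF _ hR).continuousOn.continuousAt ?_
    rw [uIcc_of_le (by linarith)]
    exact Icc_mem_nhds (by linarith [neg_abs_le x]) (by linarith [le_abs_self x])
  obtain ⟨C, hC⟩ := (isCompact_Icc (a := -Θ) (b := Θ)).exists_bound_of_continuousOn
    (f := Real.tan) (fun y hy => (Real.continuousAt_tan.mpr
      (cos_pos_of_abs hΘ (abs_le.mpr hy)).ne').continuousWithinAt)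
  have hFi : Integrable F := by
    refine Integrable.mono' ((hu2.add hv2).add (hu2.const_mul C)) hFc.aestronglyMeasurable ?_
    refine Eventually.of_forall fun x => ?_
    have h1 : |Real.tan (θ x)| ≤ C := hC _ (abs_le.mp (hθb x))
    simp only [hF, Pi.add_apply, Real.norm_eq_abs]
    calc |u x * v x - u x ^ 2 * Real.tan (θ x)| ≤ |u x * v x| + |u x ^ 2 * Real.tan (θ x)| :=
          abs_sub _ _
      _ ≤ (u x ^ 2 + v x ^ 2) + C * u x ^ 2 := by
          apply add_le_add
          · rw [abs_mul]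
            nlinarith [sq_nonneg (|u x| - |v x|), sq_abs (u x), sq_abs (v x), sq_nonneg (u x),
              sq_nonneg (v x)]
          · rw [abs_mul, abs_of_nonneg (sq_nonneg (u x)), mul_comm]
            exact mul_le_mul_of_nonneg_right h1 (sq_nonneg _)
  have hF0 : ∀ a, F a = 0 := by
    intro a
    rcases lt_trichotomy (F a) 0 with h | h | h
    · exfalso
      have h1 : Integrable (fun _ : ℝ => F a) (volume.restrict (Ici a)) := by
        refine Integrable.mono (hFi.restrict (s := Ici a)) aestronglyMeasurable_const ?_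
        refine (ae_restrict_iff' measurableSet_Ici).mpr (Eventually.of_forall fun x hx => ?_)
        have h2 := hanti a x hx
        rw [Real.norm_eq_abs, Real.norm_eq_abs, abs_of_neg h, abs_of_neg (by linarith)]
        linarith
      rw [integrable_const_iff] at h1
      rcases h1 with h1 | h1
      · exact h.ne h1
      · rw [isFiniteMeasure_restrict] at h1
        simp at h1
    · exact h
    · exfalso
      have h1 : Integrable (fun _ : ℝ => F a) (volume.restrict (Iic a)) := by
        refine Integrable.mono (hFi.restrict (s := Iic a)) aestronglyMeasurable_const ?_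
        refine (ae_restrict_iff' measurableSet_Iic).mpr (Eventually.of_forall fun x hx => ?_)
        have h2 := hanti x a hx
        rw [Real.norm_eq_abs, Real.norm_eq_abs, abs_of_pos h, abs_of_pos (by linarith)]
        linarith
      rw [integrable_const_iff] at h1
      rcases h1 with h1 | h1
      · exact h.ne' h1
      · rw [isFiniteMeasure_restrict] at h1
        simp at h1
  have hint0 : ∀ a b, a ≤ b → ∫ s in a..b, u s ^ 2 = 0 := by
    intro a b hab
    have h1 := hkey a b hab
    rw [hF0, hF0, zero_add] at h1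
    have h2 : 0 ≤ ∫ s in a..b, u s ^ 2 :=
      intervalIntegral.integral_nonneg hab fun x _ => sq_nonneg _
    have h3 : 0 < lam - mu := sub_pos.mpr hlt
    nlinarith
  have hu0 : ∀ x, u x = 0 := by
    intro x
    have h1 : (fun y => ∫ s in (0:ℝ)..y, u s ^ 2) = fun _ => 0 := by
      ext y
      rcases le_total 0 y with h | h
      · exact hint0 0 y h
      · rw [intervalIntegral.integral_symm, hint0 y 0 h, neg_zero]
    have h2 := Continuous.deriv_integral (fun s => u s ^ 2) (hu.pow 2) 0 x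
    rw [h1] at h2
    simp only [deriv_const'] at h2
    exact pow_eq_zero_iff (two_ne_zero) |>.mp h2.symm
  refine ⟨hu0, ?_⟩
  have hvc : ∀ x, v x = v 0 := by
    intro x
    rw [hve x]
    simp [hu0]
  have h1 : Integrable (fun _ : ℝ => (v 0) ^ 2) := by
    refine hv2.congr (Eventually.of_forall fun x => ?_)
    simp only
    rw [hvc x]
  rw [integrable_const_iff] at h1
  rcases h1 with h1 | h1
  · intro x
    rw [hvc x]
    exact pow_eq_zero_iff (two_ne_zero) |>.mp h1
  · exfalso
    have := h1.measure_univ_lt_top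
    simp at this

lemma re_eq {a b : ℝ} {g : ℝ → ℝ} {w : ℝ → ℂ} (hg : LocallyIntegrable g) (hw : Continuous w) :
    (∫ s in a..b, ((g s : ℝ) : ℂ) * w s).re = ∫ s in a..b, g s * (w s).re := by
  have hi : IntervalIntegrable (fun s => ((g s : ℝ) : ℂ) * w s) volume a b := by
    apply IntervalIntegrable.mul_continuousOn _ hw.continuousOn
    have h0 : IntervalIntegrable g volume a b := intervalIntegrable_iff.mpr
      ((hg.integrableOn_isCompact isCompact_uIcc).mono_set uIoc_subset_uIcc)
    exact ⟨h0.1.ofReal, h0.2.ofReal⟩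
  have h := Complex.reCLM.intervalIntegral_comp_comm hi
  simp only [Complex.reCLM_apply, Complex.re_ofReal_mul] at h
  exact h.symm

lemma im_eq {a b : ℝ} {g : ℝ → ℝ} {w : ℝ → ℂ} (hg : LocallyIntegrable g) (hw : Continuous w) :
    (∫ s in a..b, ((g s : ℝ) : ℂ) * w s).im = ∫ s in a..b, g s * (w s).im := by
  have hi : IntervalIntegrable (fun s => ((g s : ℝ) : ℂ) * w s) volume a b := by
    apply IntervalIntegrable.mul_continuousOn _ hw.continuousOn
    have h0 : IntervalIntegrable g volume a b := intervalIntegrable_iff.mpr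
      ((hg.integrableOn_isCompact isCompact_uIcc).mono_set uIoc_subset_uIcc)
    exact ⟨h0.1.ofReal, h0.2.ofReal⟩
  have h := Complex.imCLM.intervalIntegral_comp_comm hi
  simp only [Complex.imCLM_apply, Complex.im_ofReal_mul] at h
  exact h.symm

/-- Lower bound for the lowest gap eigenvalue by an angular supersolution. -/
theorem le_lambdaD_of_angle {m lam Θ : ℝ} {V θ : ℝ → ℝ}
    (hV : ∀ x, 0 ≤ V x) (hVi : LocallyIntegrable V) (hlam : lam ≤ m)
    (hΘ : Θ < Real.pi / 2) (hθb : ∀ x, |θ x| ≤ Θ)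
    (hθac : ∀ a b, AbsolutelyContinuousOnInterval θ a b)
    (hθd : ∀ᵐ x, ∃ y', HasDerivAt θ y' x ∧ lam + V x - m * Real.cos (2 * θ x) ≤ y') :
    lam ≤ lambdaD m V := by
  refine le_lambdaD hlam ?_
  intro mu hmu hlt ⟨u, v, hu, hv, hue, hve, hu2, hv2, x, hx⟩
  have hl : ∀ c : ℝ, LocallyIntegrable (fun s => mu + V s + c) := fun c =>
    ((locallyIntegrable_const mu).add hVi).add (locallyIntegrable_const c)
  have hl' : LocallyIntegrable (fun s => mu + V s - m) := by
    simpa [sub_eq_add_neg] using hl (-m)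
  have hre := no_solution hV hVi hmu hlt hΘ hθb hθac hθd
    (u := fun x => (u x).re) (v := fun x => (v x).re)
    (Complex.continuous_re.comp hu) (Complex.continuous_re.comp hv)
    (fun x => by
      rw [hue x, Complex.sub_re, re_eq (hl m) hv])
    (fun x => by
      rw [hve x, Complex.add_re, re_eq hl' hu])
    hu2.re.integrable_sq hv2.re.integrable_sq
  have him := no_solution hV hVi hmu hlt hΘ hθb hθac hθd
    (u := fun x => (u x).im) (v := fun x => (v x).im)
    (Complex.continuous_im.comp hu) (Complex.continuous_im.comp hv)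
    (fun x => by
      rw [hue x, Complex.sub_im, im_eq (hl m) hv])
    (fun x => by
      rw [hve x, Complex.add_im, im_eq hl' hu])
    hu2.im.integrable_sq hv2.im.integrable_sq
  rcases hx with hx | hx
  · exact hx (Complex.ext (hre.1 x) (him.1 x))
  · exact hx (Complex.ext (hre.2 x) (him.2 x))

end Pool.Agent.R989.DK
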