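import Pool.Agent.R989.DK.Mid

open MeasureTheory Set Filter Topology
open scoped ENNReal Interval

namespace Pool.Agent.R989.DK

namespace Par
variable (P : Par)

lemma measurable_Vp (σ : ℝ) : Measurable (P.Vp σ) := by
  have h1 : Measurable P.Th := P.continuous_Th.measurable
  have hE : Continuous P.E := by
    have := continuous_cl (-P.a) P.b1
    unfold E; fun_prop
  have hD : Measurable P.D := by
    have := continuous_cl P.b1 P.bm
    have : Continuous P.D := by unfold D; fun_prop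
    exact this.measurable
  have hEt : Measurable P.Et := by
    have := continuous_cl P.b0 P.bm
    have := continuous_cl P.bm P.a
    have : Continuous P.Et := by unfold Et; fun_prop
    exact this.measurable
  have h2 := measurable_ind (-P.a) P.a
  have h3 := measurable_ind P.b0 P.bm
  have h4 := measurable_ind P.bm P.a
  unfold Vp Et'
  fun_prop

lemma ind_mem (lo hi y : ℝ) : 0 ≤ ind lo hi y ∧ ind lo hi y ≤ 1 := by
  unfold ind; split_ifs <;> simp

lemma Vp_zero (σ : ℝ) {x : ℝ} (h : P.a ≤ |P.k * x|) : P.Vp σ x = 0 := by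
  obtain ⟨o1, o2, o3, o4⟩ := P.ord
  have hpi := Real.pi_pos
  unfold Vp Et'
  rcases abs_cases (P.k * x) with ⟨h1, _⟩ | ⟨h1, _⟩
  · rw [h1] at h
    rw [ind_of_ge h, P.Th_of_ge h, ind_of_ge (by linarith), ind_of_ge h, P.Et_zero_of_ge h]
    simp
  · rw [h1] at h
    have h2 : P.k * x ≤ -P.a := by linarith
    rw [ind_of_le h2, P.Th_of_le h2, ind_of_le (by linarith), ind_of_le (by linarith),
      P.Et_zero_of_le (by linarith), show 2 * -P.a = -(2 * P.a) by ring, Real.cos_neg]
    simp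

lemma Z_bound (x : ℝ) : |P.k * P.Et' (P.k * x) - P.m * (Real.sin (2 * (P.Th (P.k * x) -
    P.D (P.k * x))) * Real.sin (2 * P.Et (P.k * x)))| ≤ P.s * (P.k + P.m) := by
  obtain ⟨o1, o2, o3, o4⟩ := P.ord
  have hpi := Real.pi_pos
  have hpi4 := Real.pi_lt_four
  have hs := P.hs
  have hk := P.hk
  have hm := P.hm
  have hA' := P.ha'
  have h1 : |P.Et' (P.k * x)| ≤ P.s := by
    unfold Et'
    rw [abs_mul, abs_of_pos hs]
    have h2 := ind_mem P.b0 P.bm (P.k * x)
    have h3 := ind_mem P.bm P.a (P.k * x)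
    have h4 : |ind P.b0 P.bm (P.k * x) - ind P.bm P.a (P.k * x)| ≤ 1 :=
      abs_le.mpr ⟨by linarith, by linarith⟩
    nlinarith
  have h5 : |Real.sin (2 * P.Et (P.k * x))| ≤ P.s := by
    have h6 := P.Et_bound (P.k * x)
    have h7 : |Real.sin (2 * P.Et (P.k * x))| ≤ |2 * P.Et (P.k * x)| := Real.abs_sin_le_abs
    rw [abs_of_nonneg (a := 2 * P.Et (P.k * x)) (by linarith)] at h7
    have h8 : P.bm - P.b0 ≤ 1 / 2 := by
      have e1 : P.b0 = (P.a + Real.pi / 4) / 2 := rfl
      have e2 : P.bm = (P.b0 + P.a) / 2 := rfl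
      linarith
    nlinarith
  have h9 := Real.abs_sin_le_one (2 * (P.Th (P.k * x) - P.D (P.k * x)))
  calc |P.k * P.Et' (P.k * x) - P.m * (Real.sin (2 * (P.Th (P.k * x) -
      P.D (P.k * x))) * Real.sin (2 * P.Et (P.k * x)))|
      ≤ |P.k * P.Et' (P.k * x)| + |P.m * (Real.sin (2 * (P.Th (P.k * x) -
      P.D (P.k * x))) * Real.sin (2 * P.Et (P.k * x)))| := abs_sub _ _
    _ ≤ P.k * P.s + P.m * P.s := by
      apply add_le_add
      · rw [abs_mul, abs_of_pos hk]
        exact mul_le_mul_of_nonneg_left h1 hk.le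
      · rw [abs_mul, abs_mul, abs_of_pos hm]
        apply mul_le_mul_of_nonneg_left _ hm.le
        calc _ ≤ 1 * P.s := mul_le_mul h9 h5 (abs_nonneg _) zero_le_one
          _ = P.s := one_mul _
    _ = P.s * (P.k + P.m) := by ring

lemma Vp_nonneg {σ : ℝ} (hσ : σ = 1 ∨ σ = -1) (x : ℝ) : 0 ≤ P.Vp σ x := by
  rcases le_total P.a |P.k * x| with h | h
  · rw [P.Vp_zero σ h]
  · rcases eq_or_lt_of_le h with h' | h
    · rw [P.Vp_zero σ h'.ge]
    obtain ⟨o1, o2, o3, o4⟩ := P.ord
    have hpi := Real.pi_pos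
    have hA' := P.ha'
    have hZ := abs_le.mp (P.Z_bound x)
    have h1 := abs_lt.mp h
    have h2 : Real.cos (2 * P.a) ≤ Real.cos (2 * (P.k * x)) := by
      rw [← Real.cos_abs (2 * (P.k * x))]
      apply Real.cos_le_cos_of_nonneg_of_le_pi (abs_nonneg _) (by linarith)
      rw [abs_mul, abs_two]; linarith
    have h3 := mul_le_mul_of_nonneg_left h2 P.hm.le
    have h4 := P.hsk
    unfold Vp
    rw [ind_of_mem h1.1 h1.2, P.Th_of_mem h1.1.le h1.2.le]
    rw [P.Th_of_mem h1.1.le h1.2.le] at hZ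
    rcases hσ with rfl | rfl <;> linarith

lemma Vp_le_A (σ : ℝ) {x : ℝ} (h : |P.k * x| ≤ Real.pi / 8) :
    P.Vp σ x ≤ P.k + P.m - P.m * Real.cos (2 * P.a) := by
  obtain ⟨o1, o2, o3, o4⟩ := P.ord
  have hpi := Real.pi_pos
  have h1 := abs_le.mp h
  have h2 := (ind_mem (-P.a) P.a (P.k * x)).2
  have h3 := Real.cos_le_one (2 * P.Th (P.k * x))
  have h4 := mul_le_mul_of_nonneg_left h2 P.hk.le
  have h5 := mul_le_mul_of_nonneg_left h3 P.hm.le
  unfold Vp Et'
  rw [ind_of_le (lo := P.b0) (by linarith), ind_of_le (lo := P.bm) (by linarith),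
    P.Et_zero_of_le (by linarith)]
  simp only [sub_self, mul_zero, Real.sin_zero]
  linarith

lemma Vp_le_B {σ : ℝ} (hσ : σ = 1 ∨ σ = -1) {x : ℝ} (h : Real.pi / 8 ≤ |P.k * x|)
    (h' : |P.k * x| ≤ P.a) :
    P.Vp σ x ≤ P.k + P.m * Real.cos (Real.pi / 4) - P.m * Real.cos (2 * P.a)
      + P.s * (P.k + P.m) := by
  obtain ⟨o1, o2, o3, o4⟩ := P.ord
  have hpi := Real.pi_pos
  have hA' := P.ha'
  have h1 := abs_le.mp h'
  have h2 := (ind_mem (-P.a) P.a (P.k * x)).2
  have h3 : Real.cos (2 * (P.k * x)) ≤ Real.cos (Real.pi / 4) := by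
    rw [← Real.cos_abs (2 * (P.k * x))]
    apply Real.cos_le_cos_of_nonneg_of_le_pi (by linarith)
    · rw [abs_mul, abs_two]; linarith
    · rw [abs_mul, abs_two]; linarith
  have h4 := mul_le_mul_of_nonneg_left h2 P.hk.le
  have h5 := mul_le_mul_of_nonneg_left h3 P.hm.le
  have hZ := abs_le.mp (P.Z_bound x)
  have hT := P.Th_of_mem h1.1 h1.2
  unfold Vp
  rw [hT] at hZ ⊢
  rcases hσ with rfl | rfl <;> linarith

/-- The two constants in the norm bound. -/
noncomputable def cA : ℝ := P.k + P.m - P.m * Real.cos (2 * P.a)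
noncomputable def cB : ℝ :=
  P.k + P.m * Real.cos (Real.pi / 4) - P.m * Real.cos (2 * P.a) + P.s * (P.k + P.m)

lemma cos2a_nonpos : Real.cos (2 * P.a) ≤ 0 := by
  have h1 := P.ha
  have h2 := P.ha'
  have hpi := Real.pi_pos
  exact Real.cos_nonpos_of_pi_div_two_le_of_le (by linarith) (by linarith)

lemma cA_pos : 0 < P.cA := by
  have := P.cos2a_nonpos
  have := P.hm
  have := P.hk
  unfold cA
  nlinarith

lemma cB_pos : 0 < P.cB := by
  have := P.cos2a_nonpos
  have hm := P.hm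
  have hk := P.hk
  have hs := P.hs
  have h1 : 0 < Real.cos (Real.pi / 4) := by
    rw [Real.cos_pi_div_four]; positivity
  have h2 : 0 < P.m * Real.cos (Real.pi / 4) := by positivity
  have h3 : 0 < P.s * (P.k + P.m) := by positivity
  unfold cB
  nlinarith

lemma Vp_memLp {σ : ℝ} (hσ : σ = 1 ∨ σ = -1) (p : ℝ≥0∞) : MemLp (P.Vp σ) p volume := by
  have hk := P.hk
  have h1 : MemLp ((Icc (-(P.a / P.k)) (P.a / P.k)).indicator
      (fun _ : ℝ => P.cA + P.cB)) p volume :=
    memLp_indicator_const p measurableSet_Icc _ (Or.inr (by simp))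
  refine h1.mono' (P.measurable_Vp σ).aestronglyMeasurable (Eventually.of_forall fun x => ?_)
  have hA := P.cA_pos
  have hB := P.cB_pos
  rw [Real.norm_of_nonneg (P.Vp_nonneg hσ x)]
  rcases le_total P.a |P.k * x| with h | h
  · rw [P.Vp_zero σ h]
    exact indicator_nonneg (fun _ _ => by linarith) _
  · have h2 : x ∈ Icc (-(P.a / P.k)) (P.a / P.k) := by
      rw [abs_mul, abs_of_pos hk] at h
      rw [mem_Icc, ← abs_le, le_div_iff₀ hk]
      linarith
    rw [indicator_of_mem h2]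
    rcases le_total |P.k * x| (Real.pi / 8) with h3 | h3
    · have := P.Vp_le_A σ h3
      unfold cA at *
      linarith
    · have := P.Vp_le_B hσ h3 h
      unfold cB at *
      linarith

lemma Vp_int {σ p : ℝ} (hσ : σ = 1 ∨ σ = -1) (hp : 1 ≤ p) :
    ∫ x, P.Vp σ x ^ p ≤ P.cA ^ p * (Real.pi / (4 * P.k)) +
      2 * (P.cB ^ p * ((P.a - Real.pi / 8) / P.k)) := by
  obtain ⟨o1, o2, o3, o4⟩ := P.ord
  have hpi := Real.pi_pos
  have hk := P.hk
  have hA := P.cA_pos
  have hB := P.cB_pos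
  have hAp : 0 < P.cA ^ p := Real.rpow_pos_of_pos hA _
  have hBp : 0 < P.cB ^ p := Real.rpow_pos_of_pos hB _
  set S1 := Icc (-(Real.pi / (8 * P.k))) (Real.pi / (8 * P.k)) with hS1
  set S2 := Icc (Real.pi / (8 * P.k)) (P.a / P.k) with hS2
  set S3 := Icc (-(P.a / P.k)) (-(Real.pi / (8 * P.k))) with hS3
  have hle2 : Real.pi / (8 * P.k) ≤ P.a / P.k := by
    rw [div_le_div_iff₀ (by positivity) hk]; nlinarith
  have i1 : Integrable (S1.indicator fun _ : ℝ => P.cA ^ p) volume :=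
    (integrable_indicator_iff measurableSet_Icc).mpr (integrableOn_const (by simp [S1]))
  have i2 : Integrable (S2.indicator fun _ : ℝ => P.cB ^ p) volume :=
    (integrable_indicator_iff measurableSet_Icc).mpr (integrableOn_const (by simp [S2]))
  have i3 : Integrable (S3.indicator fun _ : ℝ => P.cB ^ p) volume :=
    (integrable_indicator_iff measurableSet_Icc).mpr (integrableOn_const (by simp [S3]))
  have hmono : ∫ x, P.Vp σ x ^ p ≤ ∫ x, (S1.indicator (fun _ : ℝ => P.cA ^ p) x +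
      S2.indicator (fun _ : ℝ => P.cB ^ p) x + S3.indicator (fun _ : ℝ => P.cB ^ p) x) := by
    apply integral_mono_of_nonneg
    · exact Eventually.of_forall fun x => Real.rpow_nonneg (P.Vp_nonneg hσ x) _
    · exact (i1.add i2).add i3
    · refine Eventually.of_forall fun x => ?_
      have n1 : 0 ≤ S1.indicator (fun _ : ℝ => P.cA ^ p) x := indicator_nonneg (fun _ _ => hAp.le) _
      have n2 : 0 ≤ S2.indicator (fun _ : ℝ => P.cB ^ p) x := indicator_nonneg (fun _ _ => hBp.le) _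
      have n3 : 0 ≤ S3.indicator (fun _ : ℝ => P.cB ^ p) x := indicator_nonneg (fun _ _ => hBp.le) _
      simp only
      have habs : |P.k * x| = P.k * |x| := by rw [abs_mul, abs_of_pos hk]
      have hV0 := P.Vp_nonneg hσ x
      rcases le_total P.a |P.k * x| with h | h
      · rw [P.Vp_zero σ h, Real.zero_rpow (by linarith)]
        linarith
      rcases le_total |P.k * x| (Real.pi / 8) with h3 | h3
      · have hx : x ∈ S1 := by
          rw [hS1, mem_Icc, ← abs_le, le_div_iff₀ (by positivity)]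
          rw [habs] at h3; linarith
        rw [indicator_of_mem hx]
        have h4 : P.Vp σ x ^ p ≤ P.cA ^ p :=
          Real.rpow_le_rpow hV0 (P.Vp_le_A σ h3) (by linarith)
        linarith
      · have h4 : P.Vp σ x ^ p ≤ P.cB ^ p :=
          Real.rpow_le_rpow hV0 (P.Vp_le_B hσ h3 h) (by linarith)
        rw [habs] at h h3
        rcases abs_cases x with ⟨hx1, _⟩ | ⟨hx1, _⟩
        · have hx : x ∈ S2 := by
            rw [hx1] at h h3
            rw [hS2, mem_Icc, div_le_iff₀ (by positivity), le_div_iff₀ hk]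
            constructor <;> linarith
          rw [indicator_of_mem hx]
          linarith
        · have hx : x ∈ S3 := by
            rw [hx1] at h h3
            rw [hS3, mem_Icc, neg_le, le_neg, div_le_iff₀ (by positivity), le_div_iff₀ hk]
            constructor <;> linarith
          rw [indicator_of_mem hx]
          linarith
  refine hmono.trans (le_of_eq ?_)
  have e0 : ∫ x, (S1.indicator (fun _ : ℝ => P.cA ^ p) x +
      S2.indicator (fun _ : ℝ => P.cB ^ p) x + S3.indicator (fun _ : ℝ => P.cB ^ p) x) =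
      (∫ x, S1.indicator (fun _ : ℝ => P.cA ^ p) x) +
      (∫ x, S2.indicator (fun _ : ℝ => P.cB ^ p) x) +
      (∫ x, S3.indicator (fun _ : ℝ => P.cB ^ p) x) := by
    have i12 : Integrable (fun x => S1.indicator (fun _ : ℝ => P.cA ^ p) x +
      S2.indicator (fun _ : ℝ => P.cB ^ p) x) volume := i1.add i2
    rw [integral_add i12 i3, integral_add i1 i2]
  rw [e0, integral_indicator_const _ measurableSet_Icc, integral_indicator_const _
    measurableSet_Icc, integral_indicator_const _ measurableSet_Icc,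
    Real.volume_real_Icc_of_le (by
      have : 0 < Real.pi / (8 * P.k) := by positivity
      linarith),
    Real.volume_real_Icc_of_le hle2, Real.volume_real_Icc_of_le (by linarith)]
  simp only [smul_eq_mul]
  field_simp
  ring

end Par

/-- Choice of the slope `k`. -/
lemma exists_k {m p : ℝ} (hm : 0 < m) (hp : 1 ≤ p) : ∃ k N : ℝ, 0 < k ∧ 0 < N ∧ Crit m p N ∧
    (k + m) ^ p * (Real.pi / (4 * k)) +
      2 * ((k + m * Real.cos (Real.pi / 4)) ^ p * ((Real.pi / 8) / k)) < N := by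
  have hpi := Real.pi_pos
  have hc1 : Real.cos (Real.pi / 4) < 1 := by
    rw [← Real.cos_zero]
    exact Real.cos_lt_cos_of_nonneg_of_le_pi le_rfl (by linarith) (by linarith)
  have hc0 : 0 < Real.cos (Real.pi / 4) := by
    rw [Real.cos_pi_div_four]; positivity
  rcases eq_or_lt_of_le hp with rfl | hp'
  · refine ⟨10 * m, Real.pi, by positivity, hpi, crit_one hm, ?_⟩
    rw [Real.rpow_one, Real.rpow_one]
    have e1 : (10 * m + m) * (Real.pi / (4 * (10 * m))) +
      2 * ((10 * m + m * Real.cos (Real.pi / 4)) * ((Real.pi / 8) / (10 * m))) =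
      Real.pi * ((21 + Real.cos (Real.pi / 4)) / 40) := by
      field_simp
      ring
    rw [e1]
    nlinarith
  · have hp1 : 0 < p - 1 := by linarith
    have hk : 0 < m / (p - 1) := by positivity
    refine ⟨m / (p - 1), _, hk, ?_, crit_gt hm hp', ?_⟩
    · positivity
    · set k := m / (p - 1) with hkd
      have e1 : m * p / (p - 1) = k + m := by rw [hkd]; field_simp; ring
      have e2 : k * p = k + m := by rw [hkd]; field_simp; ring
      rw [e1]
      have e3 : (k + m) ^ p = (k + m) ^ (p - 1) * (k + m) := by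
        rw [← Real.rpow_add_one (by positivity) (p - 1)]; ring_nf
      have e4 : (k + m * Real.cos (Real.pi / 4)) ^ p < (k + m) ^ p := by
        apply Real.rpow_lt_rpow (by positivity) _ (by linarith)
        nlinarith
      have e5 : (k + m) ^ p * (Real.pi / (4 * k)) =
          Real.pi / 4 * (p * (k + m) ^ (p - 1)) := by
        rw [e3, ← e2]; field_simp
      have e6 : 2 * ((k + m * Real.cos (Real.pi / 4)) ^ p * ((Real.pi / 8) / k)) <
          (k + m) ^ p * (Real.pi / (4 * k)) := by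
        have : 2 * ((k + m * Real.cos (Real.pi / 4)) ^ p * ((Real.pi / 8) / k)) =
          (k + m * Real.cos (Real.pi / 4)) ^ p * (Real.pi / (4 * k)) := by
          field_simp; ring
        rw [this]
        exact mul_lt_mul_of_pos_right e4 (by positivity)
      calc _ < (k + m) ^ p * (Real.pi / (4 * k)) + (k + m) ^ p * (Real.pi / (4 * k)) := by
            linarith
        _ = _ := by rw [e5]; ring

lemma exists_s {m p k N : ℝ} (hp : 1 ≤ p) (hk : 0 < k)
    (h : (k + m) ^ p * (Real.pi / (4 * k)) +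
      2 * ((k + m * Real.cos (Real.pi / 4)) ^ p * ((Real.pi / 8) / k)) < N) :
    ∃ s : ℝ, 0 < s ∧ s ≤ 1 ∧ s * (k + m) ≤ k ∧ Real.pi / 4 + s + s * (s / 4) < Real.pi / 2 ∧
      (k + m - m * Real.cos (2 * (Real.pi / 4 + s))) ^ p * (Real.pi / (4 * k)) +
      2 * ((k + m * Real.cos (Real.pi / 4) - m * Real.cos (2 * (Real.pi / 4 + s)) +
        s * (k + m)) ^ p * ((Real.pi / 4 + s - Real.pi / 8) / k)) < N := by
  have hpi := Real.pi_pos
  have hp0 : 0 ≤ p := by linarith
  have c1 : ContinuousAt (fun s : ℝ =>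
      (k + m - m * Real.cos (2 * (Real.pi / 4 + s))) ^ p * (Real.pi / (4 * k)) +
      2 * ((k + m * Real.cos (Real.pi / 4) - m * Real.cos (2 * (Real.pi / 4 + s)) +
        s * (k + m)) ^ p * ((Real.pi / 4 + s - Real.pi / 8) / k))) 0 := by
    apply ContinuousAt.add
    · apply ContinuousAt.mul _ continuousAt_const
      exact ContinuousAt.rpow_const (by fun_prop) (Or.inr hp0)
    · apply ContinuousAt.mul continuousAt_const
      apply ContinuousAt.mul
      · exact ContinuousAt.rpow_const (by fun_prop) (Or.inr hp0)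
      · fun_prop
  have v0 : (fun s : ℝ =>
      (k + m - m * Real.cos (2 * (Real.pi / 4 + s))) ^ p * (Real.pi / (4 * k)) +
      2 * ((k + m * Real.cos (Real.pi / 4) - m * Real.cos (2 * (Real.pi / 4 + s)) +
        s * (k + m)) ^ p * ((Real.pi / 4 + s - Real.pi / 8) / k))) 0 < N := by
    simp only [add_zero, zero_mul]
    rw [show 2 * (Real.pi / 4) = Real.pi / 2 by ring, Real.cos_pi_div_two,
      show Real.pi / 4 - Real.pi / 8 = Real.pi / 8 by ring]
    simpa using h
  have h1 := c1.eventually (eventually_lt_nhds v0)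
  have h2 : ∀ᶠ s in 𝓝 (0:ℝ), s < 1 := eventually_lt_nhds one_pos
  have h3 : ∀ᶠ s in 𝓝 (0:ℝ), s * (k + m) < k := by
    have : ContinuousAt (fun s : ℝ => s * (k + m)) 0 := by fun_prop
    exact this.eventually (eventually_lt_nhds (by simpa using hk))
  have h4 : ∀ᶠ s in 𝓝 (0:ℝ), Real.pi / 4 + s + s * (s / 4) < Real.pi / 2 := by
    have : ContinuousAt (fun s : ℝ => Real.pi / 4 + s + s * (s / 4)) 0 := by fun_prop
    refine this.eventually (eventually_lt_nhds ?_)
    norm_num
    linarith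
  have h5 : ∀ᶠ s in 𝓝[>] (0:ℝ), 0 < s := self_mem_nhdsWithin
  obtain ⟨s, ⟨⟨⟨h1, h2⟩, h3⟩, h4⟩, h5⟩ :=
    (((((h1.and h2).and h3).and h4).filter_mono nhdsWithin_le_nhds).and h5).exists
  exact ⟨s, h5, h2.le, h3.le, h4, h1⟩

lemma exists_small (P : Par) (h : P.a + P.s * (P.bm - P.b0) < Real.pi / 2) :
    ∃ Q : Par, Q.m = P.m ∧ Q.k = P.k ∧ Q.a = P.a ∧ Q.s = P.s ∧ Q.Small := by
  obtain ⟨o1, o2, o3, o4⟩ := P.ord
  have hpi := Real.pi_pos
  have hm := P.hm
  have hk := P.hk
  have hs := P.hs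
  have hs1 := P.hs1
  have hA' := P.ha'
  have hE1 := P.one_le_E1
  set G : ℝ := P.m * (-Real.cos (P.b0 + Real.pi / 4) *
    (1 - Real.cos (2 * (P.s * (P.b1 - P.b0))))) with hG
  have hGpos : 0 < G := by
    apply mul_pos hm
    apply mul_pos
    · have := Real.cos_neg_of_pi_div_two_lt_of_lt (x := P.b0 + Real.pi / 4)
        (by linarith) (by linarith)
      linarith
    · have h2 : Real.cos (2 * (P.s * (P.b1 - P.b0))) < Real.cos 0 := by
        have h3 : 0 < P.s * (P.b1 - P.b0) := mul_pos hs (by linarith)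
        apply Real.cos_lt_cos_of_nonneg_of_le_pi le_rfl _ (by linarith)
        nlinarith
      rw [Real.cos_zero] at h2
      linarith
  set L : ℝ := P.m + P.k * ((1 + P.E1) / (P.bm - P.b1)) + 2 * (P.m * P.E1) with hL
  have hLpos : 0 < L := by
    have : 0 < P.bm - P.b1 := by linarith
    have : 0 < P.E1 := by linarith
    positivity
  set H : ℝ := Real.pi / 2 - P.a - P.s * (P.bm - P.b0) with hH
  have hHpos : 0 < H := by linarith
  set d : ℝ := min (min ((P.b0 - Real.pi / 4) / 2) (H / (2 * P.E1))) (G / L) with hd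
  have hE1p : 0 < P.E1 := by linarith
  have hdpos : 0 < d := by
    apply lt_min (lt_min (by linarith) (by positivity)) (by positivity)
  have d1 : d ≤ (P.b0 - Real.pi / 4) / 2 := (min_le_left _ _).trans (min_le_left _ _)
  have d2 : d ≤ H / (2 * P.E1) := (min_le_left _ _).trans (min_le_right _ _)
  have d3 : d ≤ G / L := min_le_right _ _
  rw [le_div_iff₀ (by positivity)] at d2 d3
  refine ⟨{ P with d := d, hd := hdpos }, rfl, rfl, rfl, rfl, ⟨d1, ?_, ?_⟩⟩
  · change P.a + d * P.E1 + P.s * (P.bm - P.b0) < Real.pi / 2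
    linarith
  · change P.m * d + P.k * (d * (1 + P.E1) / (P.bm - P.b1)) ≤ P.m *
      (-Real.cos (P.b0 + Real.pi / 4) * (1 - Real.cos (2 * (P.s * (P.b1 - P.b0)))) -
        2 * (d * P.E1))
    have e1 : P.m * (-Real.cos (P.b0 + Real.pi / 4) *
      (1 - Real.cos (2 * (P.s * (P.b1 - P.b0)))) - 2 * (d * P.E1)) =
        G - 2 * (P.m * (d * P.E1)) := by rw [hG]; ring
    have e2 : P.k * (d * (1 + P.E1) / (P.bm - P.b1)) =
        d * (P.k * ((1 + P.E1) / (P.bm - P.b1))) := by ring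
    rw [e1, e2]
    have e3 : d * L = P.m * d + d * (P.k * ((1 + P.E1) / (P.bm - P.b1))) +
      2 * (P.m * (d * P.E1)) := by rw [hL]; ring
    linarith

theorem Par.le_lambdaD_Vp (P : Par) (hP : P.Small) {σ : ℝ} (hσ : σ = 1 ∨ σ = -1) :
    P.m * Real.cos (2 * P.a) + P.eps ≤ lambdaD P.m (P.Vp σ) := by
  have h1 : LocallyIntegrable (P.Vp σ) := (P.Vp_memLp hσ 1).locallyIntegrable le_rfl
  have hpi4 := Real.pi_lt_four
  have hpi := Real.pi_pos
  obtain ⟨o1, o2, o3, o4⟩ := P.ord
  refine le_lambdaD_of_angle (P.Vp_nonneg hσ) h1 ?_ hP.c2 (P.ang_bound hσ) (P.ang_ac σ)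
    (P.ang_deriv hP hσ)
  have h2 := P.eps_le (P.d_lt hP)
  have h3 := P.cos2a_nonpos
  have hm := P.hm
  have h4 := hP.c1
  have h5 := P.ha'
  have h6 : P.d ≤ 1 := by linarith
  nlinarith

/-- In dimension one the lowest gap eigenvalue is not (midpoint) concave on `U_p`. -/
theorem main {m p : ℝ} (hm : 0 < m) (hp : 1 ≤ p) :
    ∃ V ∈ U m p, ∃ W ∈ U m p, ∃ t ∈ Ioo (0:ℝ) 1,
      lambdaD m (fun x => t * V x + (1 - t) * W x) <
        t * lambdaD m V + (1 - t) * lambdaD m W ∧
      (∃ R : ℝ, ∀ x, V x ≤ R ∧ W x ≤ R ∧ (R < |x| → V x = 0 ∧ W x = 0)) ∧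
      ∃ ε : ℝ, 0 < ε ∧ ∀ X : ℝ → ℝ, (∀ x, 0 ≤ X x) → MemLp X (ENNReal.ofReal p) volume →
        eLpNorm X (ENNReal.ofReal p) volume ≤
          max (eLpNorm V (ENNReal.ofReal p) volume) (eLpNorm W (ENNReal.ofReal p) volume) →
        -m + ε ≤ lambdaD m X := by
  obtain ⟨k, N, hk, hN, hcrit, hlt⟩ := exists_k hm hp
  obtain ⟨s, hs, hs1, hsk, hs2, hlt2⟩ := exists_s hp hk hlt
  have hpi := Real.pi_pos
  let P0 : Par := ⟨m, k, Real.pi / 4 + s, s, 1, hm, hk, by linarith, by nlinarith, hs, hs1, hsk,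
    one_pos⟩
  have hb : P0.bm - P0.b0 = s / 4 := by
    change (((Real.pi / 4 + s) + Real.pi / 4) / 2 + (Real.pi / 4 + s)) / 2 -
      ((Real.pi / 4 + s) + Real.pi / 4) / 2 = s / 4
    ring
  obtain ⟨P, e1, e2, e3, e4, hP⟩ := exists_small P0 (by
    rw [hb]; exact hs2)
  have e1' : P.m = m := e1
  have e2' : P.k = k := e2
  have e3' : P.a = Real.pi / 4 + s := e3
  have e4' : P.s = s := e4
  have hint : ∀ σ : ℝ, (σ = 1 ∨ σ = -1) → ∫ x, P.Vp σ x ^ p < N := by
    intro σ hσ
    refine (P.Vp_int hσ hp).trans_lt ?_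
    unfold Par.cA Par.cB
    rw [e1', e2', e3', e4']
    exact hlt2
  have hmem : ∀ σ : ℝ, (σ = 1 ∨ σ = -1) → P.Vp σ ∈ U m p := fun σ hσ =>
    mem_U hp hN hcrit (P.Vp_nonneg hσ) (P.Vp_memLp hσ _) (hint σ hσ)
  have hbd : ∀ σ : ℝ, (σ = 1 ∨ σ = -1) → ∀ x, P.Vp σ x ≤ P.cA + P.cB := by
    intro σ hσ x
    have hA := P.cA_pos
    have hB := P.cB_pos
    rcases le_total P.a |P.k * x| with h | h
    · rw [P.Vp_zero σ h]; linarith
    · rcases le_total |P.k * x| (Real.pi / 8) with h3 | h3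
      · have := P.Vp_le_A σ h3
        unfold Par.cA at *
        linarith
      · have := P.Vp_le_B hσ h3 h
        unfold Par.cB at *
        linarith
  refine ⟨P.Vp 1, hmem 1 (Or.inl rfl), P.Vp (-1), hmem (-1) (Or.inr rfl), 1 / 2,
    ⟨by norm_num, by norm_num⟩, ?_, ?_, ?_⟩
  · have e5 : (fun x => 1 / 2 * P.Vp 1 x + (1 - 1 / 2) * P.Vp (-1) x) = P.V1 := by
      rw [← P.mid_eq]
      funext x
      norm_num
    rw [e5]
    have h1 := P.lambdaD_V1_le
    have h2 := P.le_lambdaD_Vp hP (σ := 1) (Or.inl rfl)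
    have h3 := P.le_lambdaD_Vp hP (σ := -1) (Or.inr rfl)
    have h4 := P.eps_pos (P.d_lt hP)
    rw [e1'] at h1 h2 h3
    linarith
  · have hA := P.cA_pos
    have hB := P.cB_pos
    have hk' := P.hk
    refine ⟨max (P.cA + P.cB) (P.a / P.k), fun x => ⟨?_, ?_, fun hx => ?_⟩⟩
    · exact (hbd 1 (Or.inl rfl) x).trans (le_max_left _ _)
    · exact (hbd (-1) (Or.inr rfl) x).trans (le_max_left _ _)
    · have h1 : P.a / P.k < |x| := (le_max_right _ _).trans_lt hx
      have h2 : P.a ≤ |P.k * x| := by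
        rw [abs_mul, abs_of_pos hk']
        rw [div_lt_iff₀ hk'] at h1
        linarith
      exact ⟨P.Vp_zero _ h2, P.Vp_zero _ h2⟩
  · exact uniform_gap hp hcrit (P.Vp_nonneg (Or.inl rfl)) (P.Vp_memLp (Or.inl rfl) _)
      (hint 1 (Or.inl rfl)) (P.Vp_nonneg (Or.inr rfl)) (P.Vp_memLp (Or.inr rfl) _)
      (hint (-1) (Or.inr rfl))

end Pool.Agent.R989.DK
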