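import Pool.Agent.R989.DK.Basic

open MeasureTheory Set Filter Topology
open scoped ENNReal Interval

namespace Pool.Agent.R989.DK

lemma integrable_rpow {p : ℝ} (hp : 1 ≤ p) {V : ℝ → ℝ} (hV : ∀ x, 0 ≤ V x)
    (hVp : MemLp V (ENNReal.ofReal p) volume) : Integrable (fun x => V x ^ p) := by
  have h := hVp.integrable_norm_rpow (by simp; linarith) ENNReal.ofReal_ne_top
  rw [ENNReal.toReal_ofReal (by linarith)] at h
  refine h.congr (Eventually.of_forall fun x => ?_)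
  simp only [Real.norm_of_nonneg (hV x)]

lemma locInt {p : ℝ} (hp : 1 ≤ p) {V : ℝ → ℝ} (hVp : MemLp V (ENNReal.ofReal p) volume) :
    LocallyIntegrable V :=
  hVp.locallyIntegrable (by simpa using hp)

theorem keller_le {m lam p g0 h0 θ0 : ℝ} {V : ℝ → ℝ} (hm : 0 < m) (hp : 1 ≤ p)
    (hV : ∀ x, 0 ≤ V x)
    (hVp : MemLp V (ENNReal.ofReal p) volume) (hθ0' : θ0 < Real.pi / 2)
    (hg0 : 0 < g0) (hineq : ∀ x : ℝ, 0 ≤ x → x ≤ h0 + x ^ p / g0)
    (hh0 : h0 ≤ m * Real.cos (2 * θ0) - lam) (hlam : lam ≤ m)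
    (hint : ∫ x, V x ^ p ≤ 2 * θ0 * g0) : lam ≤ lambdaD m V := by
  have hi := integrable_rpow hp hV hVp
  set T : ℝ → ℝ := fun x => ∫ s in Iic x, V s ^ p with hT
  have hTa : ∀ a x, T x = T a + ∫ s in a..x, V s ^ p := by
    intro a x
    have := intervalIntegral.integral_Iic_sub_Iic (hi.integrableOn (s := Iic a))
      (hi.integrableOn (s := Iic x))
    simp only [hT]; linarith
  have hTnn : ∀ x, 0 ≤ T x := fun x =>
    setIntegral_nonneg measurableSet_Iic fun s _ => Real.rpow_nonneg (hV s) _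
  have hTle : ∀ x, T x ≤ ∫ s, V s ^ p := fun x =>
    setIntegral_le_integral hi (Eventually.of_forall fun s => Real.rpow_nonneg (hV s) _)
  have hb : ∀ x, |-θ0 + T x / g0| ≤ θ0 := by
    intro x
    have h1 : T x / g0 ≤ 2 * θ0 := by rw [div_le_iff₀ hg0]; exact (hTle x).trans hint
    have h2 : 0 ≤ T x / g0 := div_nonneg (hTnn x) hg0.le
    exact abs_le.mpr ⟨by linarith, by linarith⟩
  refine le_lambdaD_of_angle (θ := fun x => -θ0 + T x / g0) (Θ := θ0) hV (locInt hp hVp) hlam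
    hθ0' hb ?_ ?_
  · intro a b
    have h1 := (hi.intervalIntegrable (a := a) (b := b)
      ).absolutelyContinuousOnInterval_intervalIntegral left_mem_uIcc
    have h2 : AbsolutelyContinuousOnInterval (fun _ : ℝ => -θ0 + T a / g0) a b :=
      (LipschitzWith.const _).lipschitzOnWith.absolutelyContinuousOnInterval
    refine ac_congr (fun x => ?_) (h2.fun_add (h1.const_mul (1 / g0)))
    rw [hTa a x]
    ring
  · filter_upwards [_root_.LocallyIntegrable.ae_hasDerivAt_integral hi.locallyIntegrable]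
      with x hx
    have h1 : HasDerivAt T (V x ^ p) x :=
      ((hx 0).const_add (T 0)).congr_of_eventuallyEq (Eventually.of_forall (hTa 0))
    refine ⟨V x ^ p / g0, (h1.div_const g0).const_add (-θ0), ?_⟩
    have h2 := hineq (V x) (hV x)
    have h3 : Real.cos (2 * θ0) ≤ Real.cos (2 * (-θ0 + T x / g0)) := by
      rw [← Real.cos_abs (2 * (-θ0 + T x / g0))]
      apply Real.cos_le_cos_of_nonneg_of_le_pi (abs_nonneg _) (by linarith)
      rw [abs_mul, abs_two]
      linarith [hb x]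
    have h4 := mul_le_mul_of_nonneg_left h3 hm.le
    linarith

lemma young_ineq {p h x : ℝ} (hp : 1 < p) (hh : 0 < h) (hx : 0 ≤ x) :
    x ≤ h + x ^ p / (p * (h * p / (p - 1)) ^ (p - 1)) := by
  set x0 := h * p / (p - 1) with hx0d
  have hp1 : 0 < p - 1 := by linarith
  have hx0 : 0 < x0 := by positivity
  have hb := one_add_mul_self_le_rpow_one_add (s := x / x0 - 1) (by
    have : 0 ≤ x / x0 := div_nonneg hx hx0.le
    linarith) hp.le
  rw [add_sub_cancel, Real.div_rpow hx hx0.le] at hb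
  have hx0p : x0 ^ p = x0 ^ (p - 1) * x0 := by
    rw [← Real.rpow_add_one hx0.ne' (p - 1)]; ring_nf
  have hA : 0 < x0 ^ (p - 1) := Real.rpow_pos_of_pos hx0 _
  rw [hx0p, le_div_iff₀ (by positivity)] at hb
  have h1 : (1 + p * (x / x0 - 1)) * (x0 ^ (p - 1) * x0)
      = x0 ^ (p - 1) * (x0 * (1 - p) + p * x) := by
    field_simp
    ring
  rw [h1] at hb
  have h2 : x0 * (1 - p) = - (p * h) := by
    rw [hx0d]; field_simp; ring
  rw [h2] at hb
  have h3 : x - h ≤ x ^ p / (p * x0 ^ (p - 1)) := by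
    rw [le_div_iff₀ (by positivity)]
    nlinarith
  linarith

/-- `N` is a lower bound for the critical value of `∫ V^p`, in a uniform form: on
`{∫ V^p ≤ I}`, `I < N`, the lowest gap eigenvalue stays away from `-m`. -/
def Crit (m p N : ℝ) : Prop :=
  ∀ I < N, ∃ ε > 0, ∀ V : ℝ → ℝ, (∀ x, 0 ≤ V x) → MemLp V (ENNReal.ofReal p) volume →
    ∫ x, V x ^ p ≤ I → -m + ε ≤ lambdaD m V

lemma scale_int {p t : ℝ} (hp : 1 ≤ p) {V : ℝ → ℝ} (hV : ∀ x, 0 ≤ V x)
    (hVp : MemLp V (ENNReal.ofReal p) volume) (ht : t ∈ Icc (0:ℝ) 1) :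
    ∫ x, (t * V x) ^ p ≤ ∫ x, V x ^ p := by
  apply integral_mono_of_nonneg
  · exact Eventually.of_forall fun x => Real.rpow_nonneg (mul_nonneg ht.1 (hV x)) _
  · exact integrable_rpow hp hV hVp
  · refine Eventually.of_forall fun x => ?_
    simp only
    apply Real.rpow_le_rpow (mul_nonneg ht.1 (hV x)) _ (by linarith)
    nlinarith [hV x, ht.2]

theorem crit_one {m : ℝ} (hm : 0 < m) : Crit m 1 Real.pi := by
  intro I hlt
  set θ0 := max (I / 2) (Real.pi / 4) with hθ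
  have hpi := Real.pi_pos
  have h1 : θ0 < Real.pi / 2 := max_lt (by linarith) (by linarith)
  have h2 : Real.pi / 4 ≤ θ0 := le_max_right _ _
  have h3 : I / 2 ≤ θ0 := le_max_left _ _
  have h4 : -1 < Real.cos (2 * θ0) := by
    rw [← Real.cos_pi]
    exact Real.cos_lt_cos_of_nonneg_of_le_pi (by linarith) le_rfl (by linarith)
  refine ⟨m + m * Real.cos (2 * θ0), by nlinarith, fun V hV hVp hVI => ?_⟩
  have h5 : m * Real.cos (2 * θ0) ≤ lambdaD m V := by
    refine keller_le (h0 := 0) (g0 := 1) (p := 1) (θ0 := θ0) hm le_rfl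
      hV hVp h1 one_pos ?_ (by linarith) ?_ ?_
    · intro x _
      simp
    · nlinarith [Real.cos_le_one (2 * θ0)]
    · linarith
  linarith

theorem crit_gt {m p : ℝ} (hm : 0 < m) (hp : 1 < p) :
    Crit m p (Real.pi / 2 * (p * (m * p / (p - 1)) ^ (p - 1))) := by
  intro I hlt
  have hp1 : 0 < p - 1 := by linarith
  have hpi := Real.pi_pos
  have hcont : ContinuousAt (fun h : ℝ => Real.pi / 2 * (p * (h * p / (p - 1)) ^ (p - 1))) m := by
    apply ContinuousAt.mul continuousAt_const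
    apply ContinuousAt.mul continuousAt_const
    apply ContinuousAt.rpow_const
    · fun_prop
    · right; exact hp1.le
  have hev : ∀ᶠ h in 𝓝 m, I < Real.pi / 2 * (p * (h * p / (p - 1)) ^ (p - 1)) :=
    hcont.eventually (eventually_gt_nhds hlt)
  have hev2 : ∀ᶠ h in 𝓝[<] m, (I < Real.pi / 2 * (p * (h * p / (p - 1)) ^ (p - 1)))
      ∧ 0 < h ∧ h < m := by
    filter_upwards [hev.filter_mono nhdsWithin_le_nhds,
      (eventually_gt_nhds hm).filter_mono nhdsWithin_le_nhds, self_mem_nhdsWithin] with h h1 h2 h3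
    exact ⟨h1, h2, h3⟩
  obtain ⟨h, h1, h2, h3⟩ := hev2.exists
  refine ⟨m - h, by linarith, fun V hV hVp hVI => ?_⟩
  have h5 : -h ≤ lambdaD m V := by
    refine keller_le (h0 := h) (g0 := p * (h * p / (p - 1)) ^ (p - 1)) (p := p)
      (θ0 := Real.pi / 4) hm hp.le hV hVp (by linarith) (by positivity)
      (fun x hx => young_ineq hp h2 hx) ?_ (by linarith) ?_
    · rw [show 2 * (Real.pi / 4) = Real.pi / 2 by ring, Real.cos_pi_div_two]
      linarith
    · linarith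
  linarith

lemma Crit.not_reaches {m p N : ℝ} (hp : 1 ≤ p) (hc : Crit m p N) {V : ℝ → ℝ}
    (hV : ∀ x, 0 ≤ V x) (hVp : MemLp V (ENNReal.ofReal p) volume) (hlt : ∫ x, V x ^ p < N) :
    ¬ Reaches m V := by
  intro hreach
  obtain ⟨ε, hε, h1⟩ := hc _ hlt
  obtain ⟨t, ht, hlt2⟩ := hreach ε hε
  have h2 := h1 (fun x => t * V x) (fun x => mul_nonneg ht.1 (hV x)) (hVp.const_mul t)
    (scale_int hp hV hVp ht)
  linarith

lemma eLpNorm_eq {p : ℝ} (hp : 1 ≤ p) {V : ℝ → ℝ} (hV : ∀ x, 0 ≤ V x)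
    (hVp : MemLp V (ENNReal.ofReal p) volume) :
    eLpNorm V (ENNReal.ofReal p) volume = ENNReal.ofReal ((∫ x, V x ^ p) ^ p⁻¹) := by
  rw [hVp.eLpNorm_eq_integral_rpow_norm (by simp; linarith) ENNReal.ofReal_ne_top,
    ENNReal.toReal_ofReal (by linarith)]
  congr 2
  apply integral_congr_ae
  exact Eventually.of_forall fun x => by simp only [Real.norm_of_nonneg (hV x)]

theorem mem_U {m p N : ℝ} (hp : 1 ≤ p) (hN : 0 < N) (hc : Crit m p N) {V : ℝ → ℝ}
    (hV : ∀ x, 0 ≤ V x) (hVp : MemLp V (ENNReal.ofReal p) volume) (hlt : ∫ x, V x ^ p < N) :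
    V ∈ U m p := by
  have hpinv : 0 < p⁻¹ := by positivity
  refine ⟨hV, hVp, ?_⟩
  have h1 : eLpNorm V (ENNReal.ofReal p) volume < ENNReal.ofReal (N ^ p⁻¹) := by
    rw [eLpNorm_eq hp hV hVp]
    apply (ENNReal.ofReal_lt_ofReal_iff (Real.rpow_pos_of_pos hN _)).mpr
    exact Real.rpow_lt_rpow (integral_nonneg fun x => Real.rpow_nonneg (hV x) _) hlt hpinv
  refine h1.trans_le ?_
  apply le_sInf
  rintro a ⟨W, hW, hWp, hWr, rfl⟩
  rw [eLpNorm_eq hp hW hWp]
  apply ENNReal.ofReal_le_ofReal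
  apply Real.rpow_le_rpow hN.le _ hpinv.le
  by_contra hcon
  exact hc.not_reaches hp hW hWp (not_le.mp hcon) hWr

/-- Potentials of norm at most that of `V` and `W` keep the eigenvalue away from `-m`. -/
theorem uniform_gap {m p N : ℝ} (hp : 1 ≤ p) (hc : Crit m p N) {V W : ℝ → ℝ}
    (hV : ∀ x, 0 ≤ V x) (hVp : MemLp V (ENNReal.ofReal p) volume) (hlt : ∫ x, V x ^ p < N)
    (hW : ∀ x, 0 ≤ W x) (hWp : MemLp W (ENNReal.ofReal p) volume) (hlt' : ∫ x, W x ^ p < N) :
    ∃ ε : ℝ, 0 < ε ∧ ∀ X : ℝ → ℝ, (∀ x, 0 ≤ X x) → MemLp X (ENNReal.ofReal p) volume →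
      eLpNorm X (ENNReal.ofReal p) volume ≤
        max (eLpNorm V (ENNReal.ofReal p) volume) (eLpNorm W (ENNReal.ofReal p) volume) →
      -m + ε ≤ lambdaD m X := by
  have hpinv : 0 < p⁻¹ := by positivity
  have hkey : ∀ {A B : ℝ → ℝ}, (∀ x, 0 ≤ A x) → MemLp A (ENNReal.ofReal p) volume →
      (∀ x, 0 ≤ B x) → MemLp B (ENNReal.ofReal p) volume →
      eLpNorm A (ENNReal.ofReal p) volume ≤ eLpNorm B (ENNReal.ofReal p) volume →
      ∫ x, A x ^ p ≤ ∫ x, B x ^ p := by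
    intro A B hA hAp hB hBp hle
    rw [eLpNorm_eq hp hA hAp, eLpNorm_eq hp hB hBp] at hle
    have hA0 : 0 ≤ ∫ x, A x ^ p := integral_nonneg fun x => Real.rpow_nonneg (hA x) _
    have hB0 : 0 ≤ ∫ x, B x ^ p := integral_nonneg fun x => Real.rpow_nonneg (hB x) _
    rw [ENNReal.ofReal_le_ofReal_iff (Real.rpow_nonneg hB0 _)] at hle
    exact (Real.rpow_le_rpow_iff hA0 hB0 hpinv).mp hle
  obtain ⟨ε, hε, h1⟩ := hc (max (∫ x, V x ^ p) (∫ x, W x ^ p)) (max_lt hlt hlt')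
  refine ⟨ε, hε, fun X hX hXp hle => h1 X hX hXp ?_⟩
  rcases le_max_iff.mp hle with h | h
  · exact (hkey hX hXp hV hVp h).trans (le_max_left _ _)
  · exact (hkey hX hXp hW hWp h).trans (le_max_right _ _)

end Pool.Agent.R989.DK
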