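import Pool.Agent.R989.DK.Angle
import Pool.Agent.R989.DK.Keller

open MeasureTheory Set Filter Topology
open scoped ENNReal Interval

namespace Pool.Agent.R989.DK

namespace Par
variable (P : Par)

/-- the midpoint potential `V_1` -/
noncomputable def V1 (x : ℝ) : ℝ :=
  P.k * ind (-P.a) P.a (P.k * x) + P.m * Real.cos (2 * P.Th (P.k * x))
    - P.m * Real.cos (2 * P.a)

lemma mid_eq : (fun x => 1 / 2 * P.Vp 1 x + 1 / 2 * P.Vp (-1) x) = P.V1 := by
  funext x
  unfold Vp V1
  ring

/-- the radial part of the eigenfunction, as a function of `y = k x` -/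
noncomputable def Rr (y : ℝ) : ℝ :=
  Real.exp (-(P.m / P.k) * ((1 - Real.cos (2 * P.Th y)) / 2 +
    Real.sin (2 * P.a) * (max (y - P.a) 0 + max (-P.a - y) 0)))

lemma hasDerivAt_Rr {y : ℝ} (h1 : y ≠ -P.a) (h2 : y ≠ P.a) :
    HasDerivAt P.Rr (P.Rr y * (-(P.m / P.k) * Real.sin (2 * P.Th y))) y := by
  have hpi := Real.pi_pos
  have hA := P.ha
  have hT := (((P.hasDerivAt_Th h1 h2).const_mul 2).cos.const_sub 1).div_const 2
  rcases lt_or_gt_of_ne h1 with h | h
  · have hM : HasDerivAt (fun y => max (y - P.a) 0 + max (-P.a - y) 0) (-1) y := by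
      have h3 : HasDerivAt (fun y : ℝ => -P.a - y) (-1) y := by
        simpa using (hasDerivAt_id y).const_sub (-P.a)
      refine h3.congr_of_eventuallyEq ?_
      filter_upwards [eventually_lt_nhds h] with z hz
      rw [max_eq_right (by linarith), max_eq_left (by linarith), zero_add]
    have h4 := ((hT.add (hM.const_mul (Real.sin (2 * P.a)))).const_mul (-(P.m / P.k))).exp
    have h5 : HasDerivAt P.Rr (P.Rr y * (-(P.m / P.k) * (-(-Real.sin (2 * P.Th y) *
      (2 * ind (-P.a) P.a y)) / 2 + Real.sin (2 * P.a) * -1))) y := h4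
    refine h5.congr_deriv ?_
    rw [ind_of_le h.le, P.Th_of_le h.le, show 2 * -P.a = -(2 * P.a) by ring, Real.sin_neg]
    ring
  rcases lt_or_gt_of_ne h2 with h' | h'
  · have hM : HasDerivAt (fun y => max (y - P.a) 0 + max (-P.a - y) 0) 0 y := by
      refine (hasDerivAt_const y (0:ℝ)).congr_of_eventuallyEq ?_
      filter_upwards [eventually_gt_nhds h, eventually_lt_nhds h'] with z hz hz'
      rw [max_eq_right (by linarith), max_eq_right (by linarith), zero_add]
    have h4 := ((hT.add (hM.const_mul (Real.sin (2 * P.a)))).const_mul (-(P.m / P.k))).exp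
    have h5 : HasDerivAt P.Rr (P.Rr y * (-(P.m / P.k) * (-(-Real.sin (2 * P.Th y) *
      (2 * ind (-P.a) P.a y)) / 2 + Real.sin (2 * P.a) * 0))) y := h4
    refine h5.congr_deriv ?_
    rw [ind_of_mem h h']
    ring
  · have hM : HasDerivAt (fun y => max (y - P.a) 0 + max (-P.a - y) 0) 1 y := by
      have h3 : HasDerivAt (fun y : ℝ => y - P.a) 1 y := (hasDerivAt_id y).sub_const P.a
      refine h3.congr_of_eventuallyEq ?_
      filter_upwards [eventually_gt_nhds h'] with z hz
      rw [max_eq_left (by linarith), max_eq_right (by linarith), add_zero]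
    have h4 := ((hT.add (hM.const_mul (Real.sin (2 * P.a)))).const_mul (-(P.m / P.k))).exp
    have h5 : HasDerivAt P.Rr (P.Rr y * (-(P.m / P.k) * (-(-Real.sin (2 * P.Th y) *
      (2 * ind (-P.a) P.a y)) / 2 + Real.sin (2 * P.a) * 1))) y := h4
    refine h5.congr_deriv ?_
    rw [ind_of_ge h'.le, P.Th_of_ge h'.le]
    ring

lemma continuous_Th : Continuous P.Th := continuous_cl _ _

lemma continuous_Rr : Continuous P.Rr := by
  have := P.continuous_Th
  unfold Rr
  fun_prop

noncomputable def uf (x : ℝ) : ℝ := P.Rr (P.k * x) * Real.cos (P.Th (P.k * x))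
noncomputable def vf (x : ℝ) : ℝ := P.Rr (P.k * x) * Real.sin (P.Th (P.k * x))

lemma continuous_uf : Continuous P.uf := by
  have := P.continuous_Th
  have := P.continuous_Rr
  unfold uf
  fun_prop

lemma continuous_vf : Continuous P.vf := by
  have := P.continuous_Th
  have := P.continuous_Rr
  unfold vf
  fun_prop

lemma measurable_V1 : Measurable P.V1 := by
  have h1 := P.continuous_Th.measurable
  have h2 := measurable_ind (-P.a) P.a
  unfold V1
  fun_prop

lemma deriv_uv {x : ℝ} (h1 : P.k * x ≠ -P.a) (h2 : P.k * x ≠ P.a) :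
    HasDerivAt P.uf (-((P.m * Real.cos (2 * P.a) + P.V1 x + P.m) * P.vf x)) x ∧
    HasDerivAt P.vf ((P.m * Real.cos (2 * P.a) + P.V1 x - P.m) * P.uf x) x := by
  have hl : HasDerivAt (fun x : ℝ => P.k * x) P.k x := by
    simpa using (hasDerivAt_id x).const_mul P.k
  have d1 := (P.hasDerivAt_Th h1 h2).comp x hl
  have d2 := (P.hasDerivAt_Rr h1 h2).comp x hl
  have hk := P.hk.ne'
  have e3 : Real.sin (2 * P.Th (P.k * x)) =
    2 * Real.sin (P.Th (P.k * x)) * Real.cos (P.Th (P.k * x)) := Real.sin_two_mul _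
  have e4 : Real.cos (2 * P.Th (P.k * x)) = 2 * Real.cos (P.Th (P.k * x)) ^ 2 - 1 :=
    Real.cos_two_mul _
  have e5 : Real.sin (P.Th (P.k * x)) ^ 2 = 1 - Real.cos (P.Th (P.k * x)) ^ 2 := by
    linarith [Real.sin_sq_add_cos_sq (P.Th (P.k * x))]
  constructor
  · have d3 := d2.mul d1.cos
    refine d3.congr_deriv ?_
    simp only [Function.comp_apply]
    unfold V1 vf
    rw [e3, e4]
    field_simp
    ring
  · have d3 := d2.mul d1.sin
    refine d3.congr_deriv ?_
    simp only [Function.comp_apply]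
    unfold V1 uf
    rw [e3, e4]
    field_simp
    ring_nf
    rw [e5]
    ring

lemma sin2a_pos : 0 < Real.sin (2 * P.a) := by
  have h1 := P.ha
  have h2 := P.ha'
  have hpi := Real.pi_pos
  exact Real.sin_pos_of_pos_of_lt_pi (by linarith) (by linarith)

lemma Rr_sq_integrable : Integrable (fun x => P.Rr (P.k * x) ^ 2) := by
  have hs := P.sin2a_pos
  have hm := P.hm
  have hk := P.hk
  have hA := P.ha
  have hpi := Real.pi_pos
  set c : ℝ := 2 * (P.m * Real.sin (2 * P.a)) with hc
  have hcpos : 0 < c := by positivity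
  set K : ℝ := Real.exp (c / P.k * P.a) * max 1 (2 / c ^ 2) with hK
  refine Integrable.mono' (integrable_inv_one_add_sq.const_mul K)
    ((P.continuous_Rr.comp (by fun_prop)).pow 2).aestronglyMeasurable ?_
  refine Eventually.of_forall fun x => ?_
  have h1 : |P.k * x| - P.a ≤ max (P.k * x - P.a) 0 + max (-P.a - P.k * x) 0 := by
    rcases abs_cases (P.k * x) with ⟨h, _⟩ | ⟨h, _⟩
    · rw [h]; linarith [le_max_left (P.k * x - P.a) 0, le_max_right (-P.a - P.k * x) 0]
    · rw [h]; linarith [le_max_right (P.k * x - P.a) 0, le_max_left (-P.a - P.k * x) 0]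
  have h2 : 0 ≤ (1 - Real.cos (2 * P.Th (P.k * x))) / 2 := by
    linarith [Real.cos_le_one (2 * P.Th (P.k * x))]
  have h3 : P.Rr (P.k * x) ^ 2 ≤ Real.exp (c / P.k * P.a) * Real.exp (-(c * |x|)) := by
    unfold Rr
    rw [← Real.exp_nat_mul, ← Real.exp_add]
    apply Real.exp_le_exp.mpr
    have h4 : (P.m / P.k) * (Real.sin (2 * P.a) * (|P.k * x| - P.a)) ≤
      (P.m / P.k) * ((1 - Real.cos (2 * P.Th (P.k * x))) / 2 +
        Real.sin (2 * P.a) * (max (P.k * x - P.a) 0 + max (-P.a - P.k * x) 0)) := by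
      apply mul_le_mul_of_nonneg_left _ (by positivity)
      nlinarith [mul_le_mul_of_nonneg_left h1 hs.le]
    have h5 : (P.m / P.k) * (Real.sin (2 * P.a) * (|P.k * x| - P.a)) =
        (c * |x| - c / P.k * P.a) / 2 := by
      rw [abs_mul, abs_of_pos hk, hc]; field_simp
    push_cast
    linarith
  have h6 : Real.exp (-(c * |x|)) ≤ max 1 (2 / c ^ 2) * (1 + x ^ 2)⁻¹ := by
    have h7 := Real.quadratic_le_exp_of_nonneg (x := c * |x|) (by positivity)
    rw [Real.exp_neg, ← div_eq_mul_inv, le_div_iff₀ (by positivity), inv_mul_le_iff₀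
      (Real.exp_pos _)]
    have h8 : 1 ≤ max 1 (2 / c ^ 2) := le_max_left _ _
    have h9 : x ^ 2 ≤ c ^ 2 * x ^ 2 / 2 * max 1 (2 / c ^ 2) := by
      have h10 : 2 / c ^ 2 ≤ max 1 (2 / c ^ 2) := le_max_right _ _
      have h11 : x ^ 2 = c ^ 2 * x ^ 2 / 2 * (2 / c ^ 2) := by field_simp
      calc x ^ 2 = c ^ 2 * x ^ 2 / 2 * (2 / c ^ 2) := h11
        _ ≤ _ := mul_le_mul_of_nonneg_left h10 (by positivity)
    have h12 : 1 + c ^ 2 * x ^ 2 / 2 ≤ Real.exp (c * |x|) := by
      have : (c * |x|) ^ 2 = c ^ 2 * x ^ 2 := by rw [mul_pow, sq_abs]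
      have : 0 ≤ c * |x| := by positivity
      linarith
    calc 1 + x ^ 2 ≤ (1 + c ^ 2 * x ^ 2 / 2) * max 1 (2 / c ^ 2) := by nlinarith
      _ ≤ _ := mul_le_mul_of_nonneg_right h12 (by positivity)
  rw [Real.norm_of_nonneg (sq_nonneg _)]
  calc P.Rr (P.k * x) ^ 2 ≤ Real.exp (c / P.k * P.a) * Real.exp (-(c * |x|)) := h3
    _ ≤ Real.exp (c / P.k * P.a) * (max 1 (2 / c ^ 2) * (1 + x ^ 2)⁻¹) :=
        mul_le_mul_of_nonneg_left h6 (Real.exp_pos _).le
    _ = K * (1 + x ^ 2)⁻¹ := by rw [hK]; ring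

lemma memLp_of_le {f : ℝ → ℝ} (hf : Continuous f) (h : ∀ x, |f x| ≤ P.Rr (P.k * x)) :
    MemLp (fun x => ((f x : ℝ) : ℂ)) 2 volume := by
  have h1 : Continuous (fun x => ((f x : ℝ) : ℂ)) := Complex.continuous_ofReal.comp hf
  rw [memLp_two_iff_integrable_sq_norm h1.aestronglyMeasurable]
  refine P.Rr_sq_integrable.mono' (by fun_prop) (Eventually.of_forall fun x => ?_)
  rw [Real.norm_of_nonneg (by positivity), Complex.norm_real, Real.norm_eq_abs]
  exact pow_le_pow_left₀ (abs_nonneg _) (h x) 2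

lemma V1_intervalIntegrable (a b c : ℝ) {w : ℝ → ℝ} (hw : Continuous w) :
    IntervalIntegrable (fun x => (P.m * Real.cos (2 * P.a) + P.V1 x + c) * w x) volume a b := by
  apply IntervalIntegrable.mul_continuousOn _ hw.continuousOn
  have h1 : IntervalIntegrable (fun _ : ℝ => |P.m * Real.cos (2 * P.a)| +
      (P.k + P.m + |P.m * Real.cos (2 * P.a)|) + |c|) volume a b := intervalIntegrable_const
  refine h1.mono_fun ?_ ?_
  · exact ((measurable_const.add P.measurable_V1).add measurable_const).aestronglyMeasurable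
  · refine Eventually.of_forall fun x => ?_
    have hm := P.hm
    have hk := P.hk
    have h2 : |P.V1 x| ≤ P.k + P.m + |P.m * Real.cos (2 * P.a)| := by
      unfold V1
      have h3 : 0 ≤ ind (-P.a) P.a (P.k * x) ∧ ind (-P.a) P.a (P.k * x) ≤ 1 := by
        unfold ind; split_ifs <;> simp
      have h4 := Real.neg_one_le_cos (2 * P.Th (P.k * x))
      have h5 := Real.cos_le_one (2 * P.Th (P.k * x))
      have h6 := le_abs_self (P.m * Real.cos (2 * P.a))
      have h7 := neg_abs_le (P.m * Real.cos (2 * P.a))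
      rw [abs_le]
      constructor <;> nlinarith
    simp only [Real.norm_eq_abs]
    rw [abs_of_nonneg (a := |P.m * Real.cos (2 * P.a)| +
      (P.k + P.m + |P.m * Real.cos (2 * P.a)|) + |c|) (by positivity)]
    calc |P.m * Real.cos (2 * P.a) + P.V1 x + c| ≤
        |P.m * Real.cos (2 * P.a)| + |P.V1 x| + |c| := abs_add_three _ _ _
      _ ≤ _ := by linarith

theorem isEigenvalue_V1 : IsEigenvalue P.m P.V1 (P.m * Real.cos (2 * P.a)) := by
  have hsc : (({-P.a / P.k, P.a / P.k} : Set ℝ)).Countable := by simp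
  have hne : ∀ x, x ∉ ({-P.a / P.k, P.a / P.k} : Set ℝ) → P.k * x ≠ -P.a ∧ P.k * x ≠ P.a := by
    intro x hx
    have hk := P.hk.ne'
    simp only [mem_insert_iff, mem_singleton_iff, not_or] at hx
    constructor
    · intro h; apply hx.1; rw [← h]; field_simp
    · intro h; apply hx.2; rw [← h]; field_simp
  refine ⟨fun x => ((P.uf x : ℝ) : ℂ), fun x => ((P.vf x : ℝ) : ℂ),
    Complex.continuous_ofReal.comp P.continuous_uf,
    Complex.continuous_ofReal.comp P.continuous_vf, ?_, ?_, ?_, ?_, ?_⟩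
  · intro x
    have h1 := integral_eq_of_hasDerivAt_off_countable P.uf
      (fun x => -((P.m * Real.cos (2 * P.a) + P.V1 x + P.m) * P.vf x)) (a := 0) (b := x) hsc
      P.continuous_uf.continuousOn
      (fun y hy => (P.deriv_uv (hne y hy.2).1 (hne y hy.2).2).1)
      (P.V1_intervalIntegrable _ _ _ P.continuous_vf).neg
    rw [intervalIntegral.integral_neg] at h1
    simp only [← Complex.ofReal_mul]
    rw [intervalIntegral.integral_ofReal, ← Complex.ofReal_sub]
    congr 1
    linarith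
  · intro x
    have h1 := integral_eq_of_hasDerivAt_off_countable P.vf
      (fun x => ((P.m * Real.cos (2 * P.a) + P.V1 x - P.m) * P.uf x)) (a := 0) (b := x) hsc
      P.continuous_vf.continuousOn
      (fun y hy => (P.deriv_uv (hne y hy.2).1 (hne y hy.2).2).2)
      (by simpa [sub_eq_add_neg] using
        P.V1_intervalIntegrable 0 x (-P.m) P.continuous_uf)
    simp only [← Complex.ofReal_mul]
    rw [intervalIntegral.integral_ofReal, ← Complex.ofReal_add]
    congr 1
    linarith
  · apply P.memLp_of_le P.continuous_uf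
    intro x
    unfold uf
    have hR : 0 < P.Rr (P.k * x) := Real.exp_pos _
    rw [abs_mul, abs_of_pos hR]
    nlinarith [Real.abs_cos_le_one (P.Th (P.k * x))]
  · apply P.memLp_of_le P.continuous_vf
    intro x
    unfold vf
    have hR : 0 < P.Rr (P.k * x) := Real.exp_pos _
    rw [abs_mul, abs_of_pos hR]
    nlinarith [Real.abs_sin_le_one (P.Th (P.k * x))]
  · refine ⟨0, Or.inl ?_⟩
    have hpi := Real.pi_pos
    have hA := P.ha
    have h1 : P.Th (P.k * 0) = 0 := by
      rw [mul_zero]; exact P.Th_of_mem (by linarith) (by linarith)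
    have hR : 0 < P.Rr (P.k * 0) := Real.exp_pos _
    simp only [uf, h1, Real.cos_zero, mul_one]
    exact_mod_cast hR.ne'

theorem lambdaD_V1_le : lambdaD P.m P.V1 ≤ P.m * Real.cos (2 * P.a) := by
  have hpi := Real.pi_pos
  have hA := P.ha
  have hA' := P.ha'
  have hm := P.hm
  have h1 : -1 < Real.cos (2 * P.a) := by
    rw [← Real.cos_pi]
    exact Real.cos_lt_cos_of_nonneg_of_le_pi (by linarith) le_rfl (by linarith)
  have h2 : Real.cos (2 * P.a) ≤ 0 :=
    Real.cos_nonpos_of_pi_div_two_le_of_le (by linarith) (by linarith)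
  exact lambdaD_le hm (by nlinarith) (by nlinarith) P.isEigenvalue_V1

end Par

end Pool.Agent.R989.DK
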